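import Pool.Agent.Gen.F5.X1D2C3Dm3.S000
import Pool.Agent.Gen.F5.X1D2C3Dm3.S001
import Pool.Agent.Gen.F5.X1D2C3Dm3.S002

set_option autoImplicit false
set_option maxRecDepth 100000

namespace Pool.Agent.Gen.F5.X1D2C3Dm3

open Pool.Agent.Helper72.F5

def n0 : Cl (O (nat_lit 3)) (R (nat_lit 143521))
    (p (nat_lit 0xb0014) (nat_lit 0) (p (nat_lit 0x20000c) (nat_lit 1) (p (nat_lit 0x200004) (nat_lit 0) (p (nat_lit 0xc9) (nat_lit 1) (p (nat_lit 0x109) (nat_lit 1) (p (nat_lit 0x101) (nat_lit 0) (p (nat_lit 0x119) (nat_lit 0) (p (nat_lit 0xd1) (nat_lit 0) (p (nat_lit 0x89) (nat_lit 0) (p (nat_lit 0x41) (nat_lit 0) (p (nat_lit 0x8a898a09081a) (nat_lit 0) (p (nat_lit 0xa090988879a) (nat_lit 0) (p (nat_lit 0x87888908071a) (nat_lit 0) (p (nat_lit 0x7080887869a) (nat_lit 0) (p (nat_lit 0x80000800088807060a) (nat_lit 0) (p (nat_lit 0x80000800060786858a) (nat_lit 0) (p (nat_lit 0x8687060502)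 (nat_lit 0) (p (nat_lit 0x606858482) (nat_lit 0) (p (nat_lit 0x160014) (nat_lit 0) (p (nat_lit 0x68612) (nat_lit 0) (p (nat_lit 0x50592) (nat_lit 0) (p (nat_lit 0x38512) (nat_lit 0) (p (nat_lit 0x50392) (nat_lit 0) (p (nat_lit 0x38312) (nat_lit 0) (p (nat_lit 0x20292) (nat_lit 0) (p (nat_lit 0x38112) (nat_lit 0) (p (nat_lit 0x20092) (nat_lit 0) (p (nat_lit 0x8012) (nat_lit 0) pn)))))))))))))))))))))))))))) :=
  Cl.node (nat_lit 0x81) (nat_lit 2) (by decide +kernel) (ClAll.succ (ClAll.succ ClAll.zero s3) s4)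

def n1 : Cl (O (nat_lit 3)) (R (nat_lit 143521))
    (p (nat_lit 0xc1) (nat_lit 1) (p (nat_lit 0xb0014) (nat_lit 0) (p (nat_lit 0x20000c) (nat_lit 1) (p (nat_lit 0x200004) (nat_lit 0) (p (nat_lit 0x109) (nat_lit 1) (p (nat_lit 0x101) (nat_lit 0) (p (nat_lit 0x111) (nat_lit 0) (p (nat_lit 0xd1) (nat_lit 1) (p (nat_lit 0x89) (nat_lit 0) (p (nat_lit 0x41) (nat_lit 0) (p (nat_lit 0x8a898a09081a) (nat_lit 0) (p (nat_lit 0xa090988879a) (nat_lit 0) (p (nat_lit 0x87888908071a) (nat_lit 0) (p (nat_lit 0x7080887869a) (nat_lit 0) (p (nat_lit 0x80000800088807060a) (nat_lit 0) (p (nat_lit 0x80000800060786858a) (nat_lit 0) (p (nat_lit 0x8687060502) (nat_lit 0) (p (nat_lit 0x606858482) (nat_lit 0) (p (nat_lit 0x160014) (nat_lit 0) (p (nat_lit 0x68612) (nat_lit 0) (p (nat_lit 0x50592) (nat_lit 0) (p (nat_lit 0x38512) (nat_lit 0) (p (nat_lit 0x50392) (nat_lit 0) (p (nat_lit 0x38312) (nat_lit 0)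 (p (nat_lit 0x20292) (nat_lit 0) (p (nat_lit 0x38112) (nat_lit 0) (p (nat_lit 0x20092) (nat_lit 0) (p (nat_lit 0x8012) (nat_lit 0) pn)))))))))))))))))))))))))))) :=
  Cl.node (nat_lit 0x41) (nat_lit 2) (by decide +kernel) (ClAll.succ (ClAll.succ ClAll.zero s30) s31)

def n2 : Cl (O (nat_lit 3)) (R (nat_lit 143521))
    (p (nat_lit 0xb0014) (nat_lit 0) (p (nat_lit 0x200004) (nat_lit 1) (p (nat_lit 0xd1) (nat_lit 1) (p (nat_lit 0x111) (nat_lit 1) (p (nat_lit 0x109) (nat_lit 0) (p (nat_lit 0x101) (nat_lit 0) (p (nat_lit 0x119) (nat_lit 0) (p (nat_lit 0xc9) (nat_lit 0) (p (nat_lit 0x89) (nat_lit 1) (p (nat_lit 0x41) (nat_lit 0) (p (nat_lit 0x8a898a09081a) (nat_lit 0) (p (nat_lit 0xa090988879a) (nat_lit 0) (p (nat_lit 0x87888908071a) (nat_lit 0) (p (nat_lit 0x7080887869a) (nat_lit 0) (p (nat_lit 0x80000800088807060a) (nat_lit 0) (p (nat_lit 0x80000800060786858a) (nat_lit 0) (p (nat_lit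 0x8687060502) (nat_lit 0) (p (nat_lit 0x606858482) (nat_lit 0) (p (nat_lit 0x160014) (nat_lit 0) (p (nat_lit 0x68612) (nat_lit 0) (p (nat_lit 0x50592) (nat_lit 0) (p (nat_lit 0x38512) (nat_lit 0) (p (nat_lit 0x50392) (nat_lit 0) (p (nat_lit 0x38312) (nat_lit 0) (p (nat_lit 0x20292) (nat_lit 0) (p (nat_lit 0x38112) (nat_lit 0) (p (nat_lit 0x20092) (nat_lit 0) (p (nat_lit 0x8012) (nat_lit 0) pn)))))))))))))))))))))))))))) :=
  Cl.node (nat_lit 0x20000c) (nat_lit 2) (by decide +kernel) (ClAll.succ (ClAll.succ ClAll.zero s57) s58)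

def n3 : Cl (O (nat_lit 3)) (R (nat_lit 143521))
    (p (nat_lit 0x20000c) (nat_lit 1) (p (nat_lit 0x200004) (nat_lit 0) (p (nat_lit 0xc9) (nat_lit 1) (p (nat_lit 0x109) (nat_lit 1) (p (nat_lit 0x101) (nat_lit 0) (p (nat_lit 0x119) (nat_lit 0) (p (nat_lit 0xd1) (nat_lit 0) (p (nat_lit 0x89) (nat_lit 0) (p (nat_lit 0x41) (nat_lit 0) (p (nat_lit 0x8a898a09081a) (nat_lit 0) (p (nat_lit 0xa090988879a) (nat_lit 0) (p (nat_lit 0x87888908071a) (nat_lit 0) (p (nat_lit 0x7080887869a) (nat_lit 0) (p (nat_lit 0x80000800088807060a) (nat_lit 0) (p (nat_lit 0x80000800060786858a) (nat_lit 0) (p (nat_lit 0x8687060502) (nat_lit 0) (p (nat_lit 0x606858482) (nat_lit 0) (p (nat_lit 0x160014) (nat_lit 0) (p (nat_lit 0x68612) (nat_lit 0) (p (nat_lit 0x50592) (nat_lit 0) (p (nat_lit 0x38512) (nat_lit 0) (p (nat_lit 0x50392) (nat_lit 0) (p (nat_lit 0x38312) (nat_lit 0) (p (nat_lit 0x20292) (nat_lit 0)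 (p (nat_lit 0x38112) (nat_lit 0) (p (nat_lit 0x20092) (nat_lit 0) (p (nat_lit 0x8012) (nat_lit 0) pn))))))))))))))))))))))))))) :=
  Cl.node (nat_lit 0xb0014) (nat_lit 2) (by decide +kernel) (ClAll.succ (ClAll.succ ClAll.zero n0) s5)

def n4 : Cl (O (nat_lit 3)) (R (nat_lit 143521))
    (p (nat_lit 0xb0014) (nat_lit 0) (p (nat_lit 0x200004) (nat_lit 1) (p (nat_lit 0xc9) (nat_lit 1) (p (nat_lit 0x109) (nat_lit 1) (p (nat_lit 0x101) (nat_lit 0) (p (nat_lit 0x119) (nat_lit 0) (p (nat_lit 0xd1) (nat_lit 0) (p (nat_lit 0x89) (nat_lit 0) (p (nat_lit 0x41) (nat_lit 0) (p (nat_lit 0x8a898a09081a) (nat_lit 0) (p (nat_lit 0xa090988879a) (nat_lit 0) (p (nat_lit 0x87888908071a) (nat_lit 0) (p (nat_lit 0x7080887869a) (nat_lit 0) (p (nat_lit 0x80000800088807060a) (nat_lit 0) (p (nat_lit 0x80000800060786858a) (nat_lit 0) (p (nat_lit 0x8687060502) (nat_lit 0) (p (nat_lit 0x606858482) (nat_lit 0)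 (p (nat_lit 0x160014) (nat_lit 0) (p (nat_lit 0x68612) (nat_lit 0) (p (nat_lit 0x50592) (nat_lit 0) (p (nat_lit 0x38512) (nat_lit 0) (p (nat_lit 0x50392) (nat_lit 0) (p (nat_lit 0x38312) (nat_lit 0) (p (nat_lit 0x20292) (nat_lit 0) (p (nat_lit 0x38112) (nat_lit 0) (p (nat_lit 0x20092) (nat_lit 0) (p (nat_lit 0x8012) (nat_lit 0) pn))))))))))))))))))))))))))) :=
  Cl.node (nat_lit 0x20000c) (nat_lit 2) (by decide +kernel) (ClAll.succ (ClAll.succ ClAll.zero s6) s7)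

def n5 : Cl (O (nat_lit 3)) (R (nat_lit 143521))
    (p (nat_lit 0xb0014) (nat_lit 0) (p (nat_lit 0x200004) (nat_lit 1) (p (nat_lit 0xc9) (nat_lit 1) (p (nat_lit 0x81) (nat_lit 0) (p (nat_lit 0x101) (nat_lit 1) (p (nat_lit 0x119) (nat_lit 0) (p (nat_lit 0xd1) (nat_lit 0) (p (nat_lit 0x89) (nat_lit 0) (p (nat_lit 0x41) (nat_lit 0) (p (nat_lit 0x8a898a09081a) (nat_lit 0) (p (nat_lit 0xa090988879a) (nat_lit 0) (p (nat_lit 0x87888908071a) (nat_lit 0) (p (nat_lit 0x7080887869a) (nat_lit 0) (p (nat_lit 0x80000800088807060a) (nat_lit 0) (p (nat_lit 0x80000800060786858a) (nat_lit 0) (p (nat_lit 0x8687060502) (nat_lit 0) (p (nat_lit 0x606858482) (nat_lit 0) (p (nat_lit 0x160014) (nat_lit 0) (p (nat_lit 0x68612) (nat_lit 0) (p (nat_lit 0x50592) (nat_lit 0) (p (nat_lit 0x38512) (nat_lit 0) (p (nat_lit 0x50392) (nat_lit 0) (p (nat_lit 0x38312) (nat_lit 0) (p (nat_lit 0x20292) (nat_lit 0) (p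 (nat_lit 0x38112) (nat_lit 0) (p (nat_lit 0x20092) (nat_lit 0) (p (nat_lit 0x8012) (nat_lit 0) pn))))))))))))))))))))))))))) :=
  Cl.node (nat_lit 0x20000c) (nat_lit 2) (by decide +kernel) (ClAll.succ (ClAll.succ ClAll.zero s13) s14)

def n6 : Cl (O (nat_lit 3)) (R (nat_lit 143521))
    (p (nat_lit 0xb0014) (nat_lit 0) (p (nat_lit 0x20000c) (nat_lit 1) (p (nat_lit 0x200004) (nat_lit 0) (p (nat_lit 0x109) (nat_lit 1) (p (nat_lit 0x101) (nat_lit 0) (p (nat_lit 0x111) (nat_lit 0) (p (nat_lit 0xd1) (nat_lit 1) (p (nat_lit 0x89) (nat_lit 0) (p (nat_lit 0x41) (nat_lit 0) (p (nat_lit 0x8a898a09081a) (nat_lit 0) (p (nat_lit 0xa090988879a) (nat_lit 0) (p (nat_lit 0x87888908071a) (nat_lit 0) (p (nat_lit 0x7080887869a) (nat_lit 0) (p (nat_lit 0x80000800088807060a) (nat_lit 0) (p (nat_lit 0x80000800060786858a) (nat_lit 0) (p (nat_lit 0x8687060502) (nat_lit 0) (p (nat_lit 0x606858482) (nat_lit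 0) (p (nat_lit 0x160014) (nat_lit 0) (p (nat_lit 0x68612) (nat_lit 0) (p (nat_lit 0x50592) (nat_lit 0) (p (nat_lit 0x38512) (nat_lit 0) (p (nat_lit 0x50392) (nat_lit 0) (p (nat_lit 0x38312) (nat_lit 0) (p (nat_lit 0x20292) (nat_lit 0) (p (nat_lit 0x38112) (nat_lit 0) (p (nat_lit 0x20092) (nat_lit 0) (p (nat_lit 0x8012) (nat_lit 0) pn))))))))))))))))))))))))))) :=
  Cl.node (nat_lit 0xc1) (nat_lit 2) (by decide +kernel) (ClAll.succ (ClAll.succ ClAll.zero s29) n1)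

def n7 : Cl (O (nat_lit 3)) (R (nat_lit 143521))
    (p (nat_lit 0xb0014) (nat_lit 0) (p (nat_lit 0x20000c) (nat_lit 1) (p (nat_lit 0x200004) (nat_lit 0) (p (nat_lit 0x81) (nat_lit 0) (p (nat_lit 0x101) (nat_lit 1) (p (nat_lit 0x111) (nat_lit 0) (p (nat_lit 0xd1) (nat_lit 1) (p (nat_lit 0x89) (nat_lit 0) (p (nat_lit 0x41) (nat_lit 0) (p (nat_lit 0x8a898a09081a) (nat_lit 0) (p (nat_lit 0xa090988879a) (nat_lit 0) (p (nat_lit 0x87888908071a) (nat_lit 0) (p (nat_lit 0x7080887869a) (nat_lit 0) (p (nat_lit 0x80000800088807060a) (nat_lit 0) (p (nat_lit 0x80000800060786858a) (nat_lit 0) (p (nat_lit 0x8687060502) (nat_lit 0) (p (nat_lit 0x606858482) (nat_lit 0) (p (nat_lit 0x160014) (nat_lit 0) (p (nat_lit 0x68612) (nat_lit 0) (p (nat_lit 0x50592) (nat_lit 0) (p (nat_lit 0x38512) (nat_lit 0) (p (nat_lit 0x50392) (nat_lit 0) (p (nat_lit 0x38312) (nat_lit 0) (p (nat_lit 0x20292) (nat_lit 0)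 (p (nat_lit 0x38112) (nat_lit 0) (p (nat_lit 0x20092) (nat_lit 0) (p (nat_lit 0x8012) (nat_lit 0) pn))))))))))))))))))))))))))) :=
  Cl.node (nat_lit 0x119) (nat_lit 2) (by decide +kernel) (ClAll.succ (ClAll.succ ClAll.zero s37) s38)

def n8 : Cl (O (nat_lit 3)) (R (nat_lit 143521))
    (p (nat_lit 0xb0014) (nat_lit 0) (p (nat_lit 0x200004) (nat_lit 1) (p (nat_lit 0xc1) (nat_lit 0) (p (nat_lit 0x81) (nat_lit 1) (p (nat_lit 0x101) (nat_lit 1) (p (nat_lit 0x111) (nat_lit 0) (p (nat_lit 0xd1) (nat_lit 1) (p (nat_lit 0x89) (nat_lit 0) (p (nat_lit 0x41) (nat_lit 0) (p (nat_lit 0x8a898a09081a) (nat_lit 0) (p (nat_lit 0xa090988879a) (nat_lit 0) (p (nat_lit 0x87888908071a) (nat_lit 0) (p (nat_lit 0x7080887869a) (nat_lit 0) (p (nat_lit 0x80000800088807060a) (nat_lit 0) (p (nat_lit 0x80000800060786858a) (nat_lit 0) (p (nat_lit 0x8687060502) (nat_lit 0) (p (nat_lit 0x606858482) (nat_lit 0)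 (p (nat_lit 0x160014) (nat_lit 0) (p (nat_lit 0x68612) (nat_lit 0) (p (nat_lit 0x50592) (nat_lit 0) (p (nat_lit 0x38512) (nat_lit 0) (p (nat_lit 0x50392) (nat_lit 0) (p (nat_lit 0x38312) (nat_lit 0) (p (nat_lit 0x20292) (nat_lit 0) (p (nat_lit 0x38112) (nat_lit 0) (p (nat_lit 0x20092) (nat_lit 0) (p (nat_lit 0x8012) (nat_lit 0) pn))))))))))))))))))))))))))) :=
  Cl.node (nat_lit 0x20000c) (nat_lit 2) (by decide +kernel) (ClAll.succ (ClAll.succ ClAll.zero s45) s46)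

def n9 : Cl (O (nat_lit 3)) (R (nat_lit 143521))
    (p (nat_lit 0x200004) (nat_lit 0) (p (nat_lit 0xd1) (nat_lit 1) (p (nat_lit 0x111) (nat_lit 1) (p (nat_lit 0x109) (nat_lit 0) (p (nat_lit 0x101) (nat_lit 0) (p (nat_lit 0x119) (nat_lit 0) (p (nat_lit 0xc9) (nat_lit 0) (p (nat_lit 0x89) (nat_lit 1) (p (nat_lit 0x41) (nat_lit 0) (p (nat_lit 0x8a898a09081a) (nat_lit 0) (p (nat_lit 0xa090988879a) (nat_lit 0) (p (nat_lit 0x87888908071a) (nat_lit 0) (p (nat_lit 0x7080887869a) (nat_lit 0) (p (nat_lit 0x80000800088807060a) (nat_lit 0) (p (nat_lit 0x80000800060786858a) (nat_lit 0) (p (nat_lit 0x8687060502) (nat_lit 0) (p (nat_lit 0x606858482) (nat_lit 0) (p (nat_lit 0x160014) (nat_lit 0) (p (nat_lit 0x68612) (nat_lit 0) (p (nat_lit 0x50592) (nat_lit 0) (p (nat_lit 0x38512) (nat_lit 0) (p (nat_lit 0x50392) (nat_lit 0) (p (nat_lit 0x38312) (nat_lit 0) (p (nat_lit 0x20292) (nat_lit 0) (p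 (nat_lit 0x38112) (nat_lit 0) (p (nat_lit 0x20092) (nat_lit 0) (p (nat_lit 0x8012) (nat_lit 0) pn))))))))))))))))))))))))))) :=
  Cl.node (nat_lit 0x20000c) (nat_lit 2) (by decide +kernel) (ClAll.succ (ClAll.succ ClAll.zero s55) s56)

def n10 : Cl (O (nat_lit 3)) (R (nat_lit 143521))
    (p (nat_lit 0x200004) (nat_lit 1) (p (nat_lit 0xd1) (nat_lit 1) (p (nat_lit 0x111) (nat_lit 1) (p (nat_lit 0x109) (nat_lit 0) (p (nat_lit 0x101) (nat_lit 0) (p (nat_lit 0x119) (nat_lit 0) (p (nat_lit 0xc9) (nat_lit 0) (p (nat_lit 0x89) (nat_lit 1) (p (nat_lit 0x41) (nat_lit 0) (p (nat_lit 0x8a898a09081a) (nat_lit 0) (p (nat_lit 0xa090988879a) (nat_lit 0) (p (nat_lit 0x87888908071a) (nat_lit 0) (p (nat_lit 0x7080887869a) (nat_lit 0) (p (nat_lit 0x80000800088807060a) (nat_lit 0) (p (nat_lit 0x80000800060786858a) (nat_lit 0) (p (nat_lit 0x8687060502) (nat_lit 0) (p (nat_lit 0x606858482) (nat_lit 0)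 (p (nat_lit 0x160014) (nat_lit 0) (p (nat_lit 0x68612) (nat_lit 0) (p (nat_lit 0x50592) (nat_lit 0) (p (nat_lit 0x38512) (nat_lit 0) (p (nat_lit 0x50392) (nat_lit 0) (p (nat_lit 0x38312) (nat_lit 0) (p (nat_lit 0x20292) (nat_lit 0) (p (nat_lit 0x38112) (nat_lit 0) (p (nat_lit 0x20092) (nat_lit 0) (p (nat_lit 0x8012) (nat_lit 0) pn))))))))))))))))))))))))))) :=
  Cl.node (nat_lit 0xb0014) (nat_lit 2) (by decide +kernel) (ClAll.succ (ClAll.succ ClAll.zero n2) s59)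

def n11 : Cl (O (nat_lit 3)) (R (nat_lit 143521))
    (p (nat_lit 0x200004) (nat_lit 0) (p (nat_lit 0xc9) (nat_lit 0) (p (nat_lit 0x89) (nat_lit 1) (p (nat_lit 0x109) (nat_lit 1) (p (nat_lit 0x101) (nat_lit 0) (p (nat_lit 0x111) (nat_lit 0) (p (nat_lit 0xd1) (nat_lit 1) (p (nat_lit 0x81) (nat_lit 0) (p (nat_lit 0x41) (nat_lit 1) (p (nat_lit 0x8a898a09081a) (nat_lit 0) (p (nat_lit 0xa090988879a) (nat_lit 0) (p (nat_lit 0x87888908071a) (nat_lit 0) (p (nat_lit 0x7080887869a) (nat_lit 0) (p (nat_lit 0x80000800088807060a) (nat_lit 0) (p (nat_lit 0x80000800060786858a) (nat_lit 0) (p (nat_lit 0x8687060502) (nat_lit 0) (p (nat_lit 0x606858482) (nat_lit 0) (p (nat_lit 0x160014) (nat_lit 0) (p (nat_lit 0x68612) (nat_lit 0) (p (nat_lit 0x50592) (nat_lit 0) (p (nat_lit 0x38512) (nat_lit 0) (p (nat_lit 0x50392) (nat_lit 0) (p (nat_lit 0x38312) (nat_lit 0) (p (nat_lit 0x20292) (nat_lit 0) (p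 (nat_lit 0x38112) (nat_lit 0) (p (nat_lit 0x20092) (nat_lit 0) (p (nat_lit 0x8012) (nat_lit 0) pn))))))))))))))))))))))))))) :=
  Cl.node (nat_lit 0x20000c) (nat_lit 2) (by decide +kernel) (ClAll.succ (ClAll.succ ClAll.zero s93) s94)

def n12 : Cl (O (nat_lit 3)) (R (nat_lit 143521))
    (p (nat_lit 0x200004) (nat_lit 0) (p (nat_lit 0xc9) (nat_lit 1) (p (nat_lit 0x109) (nat_lit 1) (p (nat_lit 0x101) (nat_lit 0) (p (nat_lit 0x119) (nat_lit 0) (p (nat_lit 0xd1) (nat_lit 0) (p (nat_lit 0x89) (nat_lit 0) (p (nat_lit 0x41) (nat_lit 0) (p (nat_lit 0x8a898a09081a) (nat_lit 0) (p (nat_lit 0xa090988879a) (nat_lit 0) (p (nat_lit 0x87888908071a) (nat_lit 0) (p (nat_lit 0x7080887869a) (nat_lit 0) (p (nat_lit 0x80000800088807060a) (nat_lit 0) (p (nat_lit 0x80000800060786858a) (nat_lit 0) (p (nat_lit 0x8687060502) (nat_lit 0) (p (nat_lit 0x606858482) (nat_lit 0) (p (nat_lit 0x160014) (nat_lit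 0) (p (nat_lit 0x68612) (nat_lit 0) (p (nat_lit 0x50592) (nat_lit 0) (p (nat_lit 0x38512) (nat_lit 0) (p (nat_lit 0x50392) (nat_lit 0) (p (nat_lit 0x38312) (nat_lit 0) (p (nat_lit 0x20292) (nat_lit 0) (p (nat_lit 0x38112) (nat_lit 0) (p (nat_lit 0x20092) (nat_lit 0) (p (nat_lit 0x8012) (nat_lit 0) pn)))))))))))))))))))))))))) :=
  Cl.node (nat_lit 0x20000c) (nat_lit 2) (by decide +kernel) (ClAll.succ (ClAll.succ ClAll.zero s2) n3)

def n13 : Cl (O (nat_lit 3)) (R (nat_lit 143521))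
    (p (nat_lit 0x200004) (nat_lit 1) (p (nat_lit 0xc9) (nat_lit 1) (p (nat_lit 0x109) (nat_lit 1) (p (nat_lit 0x101) (nat_lit 0) (p (nat_lit 0x119) (nat_lit 0) (p (nat_lit 0xd1) (nat_lit 0) (p (nat_lit 0x89) (nat_lit 0) (p (nat_lit 0x41) (nat_lit 0) (p (nat_lit 0x8a898a09081a) (nat_lit 0) (p (nat_lit 0xa090988879a) (nat_lit 0) (p (nat_lit 0x87888908071a) (nat_lit 0) (p (nat_lit 0x7080887869a) (nat_lit 0) (p (nat_lit 0x80000800088807060a) (nat_lit 0) (p (nat_lit 0x80000800060786858a) (nat_lit 0) (p (nat_lit 0x8687060502) (nat_lit 0) (p (nat_lit 0x606858482) (nat_lit 0) (p (nat_lit 0x160014) (nat_lit 0) (p (nat_lit 0x68612) (nat_lit 0) (p (nat_lit 0x50592) (nat_lit 0) (p (nat_lit 0x38512) (nat_lit 0) (p (nat_lit 0x50392) (nat_lit 0) (p (nat_lit 0x38312) (nat_lit 0) (p (nat_lit 0x20292) (nat_lit 0) (p (nat_lit 0x38112) (nat_lit 0) (p (nat_lit 0x20092) (nat_lit 0) (p (nat_lit 0x8012)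 (nat_lit 0) pn)))))))))))))))))))))))))) :=
  Cl.node (nat_lit 0xb0014) (nat_lit 2) (by decide +kernel) (ClAll.succ (ClAll.succ ClAll.zero n4) s8)

def n14 : Cl (O (nat_lit 3)) (R (nat_lit 143521))
    (p (nat_lit 0x200004) (nat_lit 0) (p (nat_lit 0xc9) (nat_lit 1) (p (nat_lit 0x81) (nat_lit 0) (p (nat_lit 0x101) (nat_lit 1) (p (nat_lit 0x119) (nat_lit 0) (p (nat_lit 0xd1) (nat_lit 0) (p (nat_lit 0x89) (nat_lit 0) (p (nat_lit 0x41) (nat_lit 0) (p (nat_lit 0x8a898a09081a) (nat_lit 0) (p (nat_lit 0xa090988879a) (nat_lit 0) (p (nat_lit 0x87888908071a) (nat_lit 0) (p (nat_lit 0x7080887869a) (nat_lit 0) (p (nat_lit 0x80000800088807060a) (nat_lit 0) (p (nat_lit 0x80000800060786858a) (nat_lit 0) (p (nat_lit 0x8687060502) (nat_lit 0) (p (nat_lit 0x606858482) (nat_lit 0) (p (nat_lit 0x160014) (nat_lit 0) (p (nat_lit 0x68612) (nat_lit 0) (p (nat_lit 0x50592) (nat_lit 0) (p (nat_lit 0x38512)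 (nat_lit 0) (p (nat_lit 0x50392) (nat_lit 0) (p (nat_lit 0x38312) (nat_lit 0) (p (nat_lit 0x20292) (nat_lit 0) (p (nat_lit 0x38112) (nat_lit 0) (p (nat_lit 0x20092) (nat_lit 0) (p (nat_lit 0x8012) (nat_lit 0) pn)))))))))))))))))))))))))) :=
  Cl.node (nat_lit 0x20000c) (nat_lit 2) (by decide +kernel) (ClAll.succ (ClAll.succ ClAll.zero s11) s12)

def n15 : Cl (O (nat_lit 3)) (R (nat_lit 143521))
    (p (nat_lit 0x200004) (nat_lit 1) (p (nat_lit 0xc9) (nat_lit 1) (p (nat_lit 0x81) (nat_lit 0) (p (nat_lit 0x101) (nat_lit 1) (p (nat_lit 0x119) (nat_lit 0) (p (nat_lit 0xd1) (nat_lit 0) (p (nat_lit 0x89) (nat_lit 0) (p (nat_lit 0x41) (nat_lit 0) (p (nat_lit 0x8a898a09081a) (nat_lit 0) (p (nat_lit 0xa090988879a) (nat_lit 0) (p (nat_lit 0x87888908071a) (nat_lit 0) (p (nat_lit 0x7080887869a) (nat_lit 0) (p (nat_lit 0x80000800088807060a) (nat_lit 0) (p (nat_lit 0x80000800060786858a) (nat_lit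 0) (p (nat_lit 0x8687060502) (nat_lit 0) (p (nat_lit 0x606858482) (nat_lit 0) (p (nat_lit 0x160014) (nat_lit 0) (p (nat_lit 0x68612) (nat_lit 0) (p (nat_lit 0x50592) (nat_lit 0) (p (nat_lit 0x38512) (nat_lit 0) (p (nat_lit 0x50392) (nat_lit 0) (p (nat_lit 0x38312) (nat_lit 0) (p (nat_lit 0x20292) (nat_lit 0) (p (nat_lit 0x38112) (nat_lit 0) (p (nat_lit 0x20092) (nat_lit 0) (p (nat_lit 0x8012) (nat_lit 0) pn)))))))))))))))))))))))))) :=
  Cl.node (nat_lit 0xb0014) (nat_lit 2) (by decide +kernel) (ClAll.succ (ClAll.succ ClAll.zero n5) s15)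

def n16 : Cl (O (nat_lit 3)) (R (nat_lit 143521))
    (p (nat_lit 0xc9) (nat_lit 0) (p (nat_lit 0xc1) (nat_lit 0) (p (nat_lit 0x81) (nat_lit 1) (p (nat_lit 0x101) (nat_lit 1) (p (nat_lit 0x119) (nat_lit 0) (p (nat_lit 0xd1) (nat_lit 0) (p (nat_lit 0x89) (nat_lit 0) (p (nat_lit 0x41) (nat_lit 0) (p (nat_lit 0x8a898a09081a) (nat_lit 0) (p (nat_lit 0xa090988879a) (nat_lit 0) (p (nat_lit 0x87888908071a) (nat_lit 0) (p (nat_lit 0x7080887869a) (nat_lit 0) (p (nat_lit 0x80000800088807060a) (nat_lit 0) (p (nat_lit 0x80000800060786858a) (nat_lit 0) (p (nat_lit 0x8687060502) (nat_lit 0) (p (nat_lit 0x606858482) (nat_lit 0) (p (nat_lit 0x160014) (nat_lit 0) (p (nat_lit 0x68612) (nat_lit 0) (p (nat_lit 0x50592) (nat_lit 0) (p (nat_lit 0x38512) (nat_lit 0) (p (nat_lit 0x50392) (nat_lit 0) (p (nat_lit 0x38312) (nat_lit 0) (p (nat_lit 0x20292) (nat_lit 0) (p (nat_lit 0x38112) (nat_lit 0) (p (nat_lit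 0x20092) (nat_lit 0) (p (nat_lit 0x8012) (nat_lit 0) pn)))))))))))))))))))))))))) :=
  Cl.node (nat_lit 0x200004) (nat_lit 2) (by decide +kernel) (ClAll.succ (ClAll.succ ClAll.zero s16) s17)

def n17 : Cl (O (nat_lit 3)) (R (nat_lit 143521))
    (p (nat_lit 0x20000c) (nat_lit 1) (p (nat_lit 0x200004) (nat_lit 0) (p (nat_lit 0x109) (nat_lit 1) (p (nat_lit 0x101) (nat_lit 0) (p (nat_lit 0x111) (nat_lit 0) (p (nat_lit 0xd1) (nat_lit 1) (p (nat_lit 0x89) (nat_lit 0) (p (nat_lit 0x41) (nat_lit 0) (p (nat_lit 0x8a898a09081a) (nat_lit 0) (p (nat_lit 0xa090988879a) (nat_lit 0) (p (nat_lit 0x87888908071a) (nat_lit 0) (p (nat_lit 0x7080887869a) (nat_lit 0) (p (nat_lit 0x80000800088807060a) (nat_lit 0) (p (nat_lit 0x80000800060786858a) (nat_lit 0) (p (nat_lit 0x8687060502) (nat_lit 0) (p (nat_lit 0x606858482) (nat_lit 0) (p (nat_lit 0x160014) (nat_lit 0) (p (nat_lit 0x68612) (nat_lit 0) (p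 (nat_lit 0x50592) (nat_lit 0) (p (nat_lit 0x38512) (nat_lit 0) (p (nat_lit 0x50392) (nat_lit 0) (p (nat_lit 0x38312) (nat_lit 0) (p (nat_lit 0x20292) (nat_lit 0) (p (nat_lit 0x38112) (nat_lit 0) (p (nat_lit 0x20092) (nat_lit 0) (p (nat_lit 0x8012) (nat_lit 0) pn)))))))))))))))))))))))))) :=
  Cl.node (nat_lit 0xb0014) (nat_lit 2) (by decide +kernel) (ClAll.succ (ClAll.succ ClAll.zero n6) s32)

def n18 : Cl (O (nat_lit 3)) (R (nat_lit 143521))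
    (p (nat_lit 0xb0014) (nat_lit 0) (p (nat_lit 0x200004) (nat_lit 1) (p (nat_lit 0x109) (nat_lit 1) (p (nat_lit 0x101) (nat_lit 0) (p (nat_lit 0x111) (nat_lit 0) (p (nat_lit 0xd1) (nat_lit 1) (p (nat_lit 0x89) (nat_lit 0) (p (nat_lit 0x41) (nat_lit 0) (p (nat_lit 0x8a898a09081a) (nat_lit 0) (p (nat_lit 0xa090988879a) (nat_lit 0) (p (nat_lit 0x87888908071a) (nat_lit 0) (p (nat_lit 0x7080887869a) (nat_lit 0) (p (nat_lit 0x80000800088807060a) (nat_lit 0) (p (nat_lit 0x80000800060786858a) (nat_lit 0) (p (nat_lit 0x8687060502) (nat_lit 0) (p (nat_lit 0x606858482) (nat_lit 0) (p (nat_lit 0x160014) (nat_lit 0) (p (nat_lit 0x68612) (nat_lit 0) (p (nat_lit 0x50592) (nat_lit 0) (p (nat_lit 0x38512) (nat_lit 0) (p (nat_lit 0x50392) (nat_lit 0) (p (nat_lit 0x38312) (nat_lit 0) (p (nat_lit 0x20292) (nat_lit 0) (p (nat_lit 0x38112) (nat_lit 0) (p (nat_lit 0x20092) (nat_lit 0) (p (nat_lit 0x8012)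 (nat_lit 0) pn)))))))))))))))))))))))))) :=
  Cl.node (nat_lit 0x20000c) (nat_lit 2) (by decide +kernel) (ClAll.succ (ClAll.succ ClAll.zero s33) s34)

def n19 : Cl (O (nat_lit 3)) (R (nat_lit 143521))
    (p (nat_lit 0x20000c) (nat_lit 1) (p (nat_lit 0x200004) (nat_lit 0) (p (nat_lit 0x81) (nat_lit 0) (p (nat_lit 0x101) (nat_lit 1) (p (nat_lit 0x111) (nat_lit 0) (p (nat_lit 0xd1) (nat_lit 1) (p (nat_lit 0x89) (nat_lit 0) (p (nat_lit 0x41) (nat_lit 0) (p (nat_lit 0x8a898a09081a) (nat_lit 0) (p (nat_lit 0xa090988879a) (nat_lit 0) (p (nat_lit 0x87888908071a) (nat_lit 0) (p (nat_lit 0x7080887869a) (nat_lit 0) (p (nat_lit 0x80000800088807060a) (nat_lit 0) (p (nat_lit 0x80000800060786858a) (nat_lit 0) (p (nat_lit 0x8687060502) (nat_lit 0) (p (nat_lit 0x606858482) (nat_lit 0) (p (nat_lit 0x160014) (nat_lit 0) (p (nat_lit 0x68612) (nat_lit 0) (p (nat_lit 0x50592) (nat_lit 0) (p (nat_lit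 0x38512) (nat_lit 0) (p (nat_lit 0x50392) (nat_lit 0) (p (nat_lit 0x38312) (nat_lit 0) (p (nat_lit 0x20292) (nat_lit 0) (p (nat_lit 0x38112) (nat_lit 0) (p (nat_lit 0x20092) (nat_lit 0) (p (nat_lit 0x8012) (nat_lit 0) pn)))))))))))))))))))))))))) :=
  Cl.node (nat_lit 0xb0014) (nat_lit 2) (by decide +kernel) (ClAll.succ (ClAll.succ ClAll.zero n7) s39)

def n20 : Cl (O (nat_lit 3)) (R (nat_lit 143521))
    (p (nat_lit 0xb0014) (nat_lit 0) (p (nat_lit 0x200004) (nat_lit 1) (p (nat_lit 0x81) (nat_lit 0) (p (nat_lit 0x101) (nat_lit 1) (p (nat_lit 0x111) (nat_lit 0) (p (nat_lit 0xd1) (nat_lit 1) (p (nat_lit 0x89) (nat_lit 0) (p (nat_lit 0x41) (nat_lit 0) (p (nat_lit 0x8a898a09081a) (nat_lit 0) (p (nat_lit 0xa090988879a) (nat_lit 0) (p (nat_lit 0x87888908071a) (nat_lit 0) (p (nat_lit 0x7080887869a) (nat_lit 0) (p (nat_lit 0x80000800088807060a) (nat_lit 0) (p (nat_lit 0x80000800060786858a)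 (nat_lit 0) (p (nat_lit 0x8687060502) (nat_lit 0) (p (nat_lit 0x606858482) (nat_lit 0) (p (nat_lit 0x160014) (nat_lit 0) (p (nat_lit 0x68612) (nat_lit 0) (p (nat_lit 0x50592) (nat_lit 0) (p (nat_lit 0x38512) (nat_lit 0) (p (nat_lit 0x50392) (nat_lit 0) (p (nat_lit 0x38312) (nat_lit 0) (p (nat_lit 0x20292) (nat_lit 0) (p (nat_lit 0x38112) (nat_lit 0) (p (nat_lit 0x20092) (nat_lit 0) (p (nat_lit 0x8012) (nat_lit 0) pn)))))))))))))))))))))))))) :=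
  Cl.node (nat_lit 0x20000c) (nat_lit 2) (by decide +kernel) (ClAll.succ (ClAll.succ ClAll.zero s40) s41)

def n21 : Cl (O (nat_lit 3)) (R (nat_lit 143521))
    (p (nat_lit 0x200004) (nat_lit 0) (p (nat_lit 0xc1) (nat_lit 0) (p (nat_lit 0x81) (nat_lit 1) (p (nat_lit 0x101) (nat_lit 1) (p (nat_lit 0x111) (nat_lit 0) (p (nat_lit 0xd1) (nat_lit 1) (p (nat_lit 0x89) (nat_lit 0) (p (nat_lit 0x41) (nat_lit 0) (p (nat_lit 0x8a898a09081a) (nat_lit 0) (p (nat_lit 0xa090988879a) (nat_lit 0) (p (nat_lit 0x87888908071a) (nat_lit 0) (p (nat_lit 0x7080887869a) (nat_lit 0) (p (nat_lit 0x80000800088807060a) (nat_lit 0) (p (nat_lit 0x80000800060786858a) (nat_lit 0) (p (nat_lit 0x8687060502) (nat_lit 0) (p (nat_lit 0x606858482) (nat_lit 0) (p (nat_lit 0x160014) (nat_lit 0) (p (nat_lit 0x68612) (nat_lit 0) (p (nat_lit 0x50592) (nat_lit 0) (p (nat_lit 0x38512) (nat_lit 0) (p (nat_lit 0x50392) (nat_lit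 0) (p (nat_lit 0x38312) (nat_lit 0) (p (nat_lit 0x20292) (nat_lit 0) (p (nat_lit 0x38112) (nat_lit 0) (p (nat_lit 0x20092) (nat_lit 0) (p (nat_lit 0x8012) (nat_lit 0) pn)))))))))))))))))))))))))) :=
  Cl.node (nat_lit 0x20000c) (nat_lit 2) (by decide +kernel) (ClAll.succ (ClAll.succ ClAll.zero s43) s44)

def n22 : Cl (O (nat_lit 3)) (R (nat_lit 143521))
    (p (nat_lit 0x200004) (nat_lit 1) (p (nat_lit 0xc1) (nat_lit 0) (p (nat_lit 0x81) (nat_lit 1) (p (nat_lit 0x101) (nat_lit 1) (p (nat_lit 0x111) (nat_lit 0) (p (nat_lit 0xd1) (nat_lit 1) (p (nat_lit 0x89) (nat_lit 0) (p (nat_lit 0x41) (nat_lit 0) (p (nat_lit 0x8a898a09081a) (nat_lit 0) (p (nat_lit 0xa090988879a) (nat_lit 0) (p (nat_lit 0x87888908071a) (nat_lit 0) (p (nat_lit 0x7080887869a) (nat_lit 0) (p (nat_lit 0x80000800088807060a) (nat_lit 0) (p (nat_lit 0x80000800060786858a) (nat_lit 0) (p (nat_lit 0x8687060502) (nat_lit 0)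 (p (nat_lit 0x606858482) (nat_lit 0) (p (nat_lit 0x160014) (nat_lit 0) (p (nat_lit 0x68612) (nat_lit 0) (p (nat_lit 0x50592) (nat_lit 0) (p (nat_lit 0x38512) (nat_lit 0) (p (nat_lit 0x50392) (nat_lit 0) (p (nat_lit 0x38312) (nat_lit 0) (p (nat_lit 0x20292) (nat_lit 0) (p (nat_lit 0x38112) (nat_lit 0) (p (nat_lit 0x20092) (nat_lit 0) (p (nat_lit 0x8012) (nat_lit 0) pn)))))))))))))))))))))))))) :=
  Cl.node (nat_lit 0xb0014) (nat_lit 2) (by decide +kernel) (ClAll.succ (ClAll.succ ClAll.zero n8) s47)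

def n23 : Cl (O (nat_lit 3)) (R (nat_lit 143521))
    (p (nat_lit 0xd1) (nat_lit 1) (p (nat_lit 0x111) (nat_lit 1) (p (nat_lit 0x109) (nat_lit 0) (p (nat_lit 0x101) (nat_lit 0) (p (nat_lit 0x119) (nat_lit 0) (p (nat_lit 0xc9) (nat_lit 0) (p (nat_lit 0x89) (nat_lit 1) (p (nat_lit 0x41) (nat_lit 0) (p (nat_lit 0x8a898a09081a) (nat_lit 0) (p (nat_lit 0xa090988879a) (nat_lit 0) (p (nat_lit 0x87888908071a) (nat_lit 0) (p (nat_lit 0x7080887869a) (nat_lit 0) (p (nat_lit 0x80000800088807060a) (nat_lit 0) (p (nat_lit 0x80000800060786858a) (nat_lit 0) (p (nat_lit 0x8687060502) (nat_lit 0) (p (nat_lit 0x606858482) (nat_lit 0) (p (nat_lit 0x160014) (nat_lit 0) (p (nat_lit 0x68612) (nat_lit 0) (p (nat_lit 0x50592) (nat_lit 0) (p (nat_lit 0x38512) (nat_lit 0) (p (nat_lit 0x50392) (nat_lit 0) (p (nat_lit 0x38312) (nat_lit 0) (p (nat_lit 0x20292) (nat_lit 0) (p (nat_lit 0x38112) (nat_lit 0) (p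 (nat_lit 0x20092) (nat_lit 0) (p (nat_lit 0x8012) (nat_lit 0) pn)))))))))))))))))))))))))) :=
  Cl.node (nat_lit 0x200004) (nat_lit 2) (by decide +kernel) (ClAll.succ (ClAll.succ ClAll.zero n9) n10)

def n24 : Cl (O (nat_lit 3)) (R (nat_lit 143521))
    (p (nat_lit 0xc9) (nat_lit 0) (p (nat_lit 0x89) (nat_lit 1) (p (nat_lit 0x109) (nat_lit 1) (p (nat_lit 0x101) (nat_lit 0) (p (nat_lit 0x111) (nat_lit 0) (p (nat_lit 0xd1) (nat_lit 1) (p (nat_lit 0x81) (nat_lit 0) (p (nat_lit 0x41) (nat_lit 1) (p (nat_lit 0x8a898a09081a) (nat_lit 0) (p (nat_lit 0xa090988879a) (nat_lit 0) (p (nat_lit 0x87888908071a) (nat_lit 0) (p (nat_lit 0x7080887869a) (nat_lit 0) (p (nat_lit 0x80000800088807060a) (nat_lit 0) (p (nat_lit 0x80000800060786858a) (nat_lit 0) (p (nat_lit 0x8687060502) (nat_lit 0) (p (nat_lit 0x606858482) (nat_lit 0) (p (nat_lit 0x160014) (nat_lit 0) (p (nat_lit 0x68612) (nat_lit 0) (p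 (nat_lit 0x50592) (nat_lit 0) (p (nat_lit 0x38512) (nat_lit 0) (p (nat_lit 0x50392) (nat_lit 0) (p (nat_lit 0x38312) (nat_lit 0) (p (nat_lit 0x20292) (nat_lit 0) (p (nat_lit 0x38112) (nat_lit 0) (p (nat_lit 0x20092) (nat_lit 0) (p (nat_lit 0x8012) (nat_lit 0) pn)))))))))))))))))))))))))) :=
  Cl.node (nat_lit 0x200004) (nat_lit 2) (by decide +kernel) (ClAll.succ (ClAll.succ ClAll.zero n11) s95)

def n25 : Cl (O (nat_lit 3)) (R (nat_lit 143521))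
    (p (nat_lit 0x200004) (nat_lit 0) (p (nat_lit 0xc9) (nat_lit 0) (p (nat_lit 0x89) (nat_lit 1) (p (nat_lit 0x101) (nat_lit 1) (p (nat_lit 0x111) (nat_lit 0) (p (nat_lit 0xd1) (nat_lit 1) (p (nat_lit 0x81) (nat_lit 0) (p (nat_lit 0x41) (nat_lit 1) (p (nat_lit 0x8a898a09081a) (nat_lit 0) (p (nat_lit 0xa090988879a) (nat_lit 0) (p (nat_lit 0x87888908071a) (nat_lit 0) (p (nat_lit 0x7080887869a) (nat_lit 0) (p (nat_lit 0x80000800088807060a) (nat_lit 0) (p (nat_lit 0x80000800060786858a) (nat_lit 0) (p (nat_lit 0x8687060502) (nat_lit 0) (p (nat_lit 0x606858482) (nat_lit 0) (p (nat_lit 0x160014) (nat_lit 0) (p (nat_lit 0x68612) (nat_lit 0) (p (nat_lit 0x50592) (nat_lit 0) (p (nat_lit 0x38512) (nat_lit 0) (p (nat_lit 0x50392) (nat_lit 0) (p (nat_lit 0x38312) (nat_lit 0) (p (nat_lit 0x20292) (nat_lit 0) (p (nat_lit 0x38112) (nat_lit 0) (p (nat_lit 0x20092) (nat_lit 0) (p (nat_lit 0x8012)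 (nat_lit 0) pn)))))))))))))))))))))))))) :=
  Cl.node (nat_lit 0x20000c) (nat_lit 2) (by decide +kernel) (ClAll.succ (ClAll.succ ClAll.zero s99) s100)

def n26 : Cl (O (nat_lit 3)) (R (nat_lit 143521))
    (p (nat_lit 0xc9) (nat_lit 1) (p (nat_lit 0x109) (nat_lit 1) (p (nat_lit 0x101) (nat_lit 0) (p (nat_lit 0x119) (nat_lit 0) (p (nat_lit 0xd1) (nat_lit 0) (p (nat_lit 0x89) (nat_lit 0) (p (nat_lit 0x41) (nat_lit 0) (p (nat_lit 0x8a898a09081a) (nat_lit 0) (p (nat_lit 0xa090988879a) (nat_lit 0) (p (nat_lit 0x87888908071a) (nat_lit 0) (p (nat_lit 0x7080887869a) (nat_lit 0) (p (nat_lit 0x80000800088807060a) (nat_lit 0) (p (nat_lit 0x80000800060786858a) (nat_lit 0) (p (nat_lit 0x8687060502) (nat_lit 0) (p (nat_lit 0x606858482) (nat_lit 0) (p (nat_lit 0x160014) (nat_lit 0) (p (nat_lit 0x68612) (nat_lit 0) (p (nat_lit 0x50592) (nat_lit 0) (p (nat_lit 0x38512) (nat_lit 0) (p (nat_lit 0x50392)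 (nat_lit 0) (p (nat_lit 0x38312) (nat_lit 0) (p (nat_lit 0x20292) (nat_lit 0) (p (nat_lit 0x38112) (nat_lit 0) (p (nat_lit 0x20092) (nat_lit 0) (p (nat_lit 0x8012) (nat_lit 0) pn))))))))))))))))))))))))) :=
  Cl.node (nat_lit 0x200004) (nat_lit 2) (by decide +kernel) (ClAll.succ (ClAll.succ ClAll.zero n12) n13)

def n27 : Cl (O (nat_lit 3)) (R (nat_lit 143521))
    (p (nat_lit 0xc9) (nat_lit 0) (p (nat_lit 0x81) (nat_lit 0) (p (nat_lit 0x101) (nat_lit 1) (p (nat_lit 0x119) (nat_lit 0) (p (nat_lit 0xd1) (nat_lit 0) (p (nat_lit 0x89) (nat_lit 0) (p (nat_lit 0x41) (nat_lit 0) (p (nat_lit 0x8a898a09081a) (nat_lit 0) (p (nat_lit 0xa090988879a) (nat_lit 0) (p (nat_lit 0x87888908071a) (nat_lit 0) (p (nat_lit 0x7080887869a) (nat_lit 0) (p (nat_lit 0x80000800088807060a) (nat_lit 0) (p (nat_lit 0x80000800060786858a) (nat_lit 0) (p (nat_lit 0x8687060502) (nat_lit 0) (p (nat_lit 0x606858482)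 (nat_lit 0) (p (nat_lit 0x160014) (nat_lit 0) (p (nat_lit 0x68612) (nat_lit 0) (p (nat_lit 0x50592) (nat_lit 0) (p (nat_lit 0x38512) (nat_lit 0) (p (nat_lit 0x50392) (nat_lit 0) (p (nat_lit 0x38312) (nat_lit 0) (p (nat_lit 0x20292) (nat_lit 0) (p (nat_lit 0x38112) (nat_lit 0) (p (nat_lit 0x20092) (nat_lit 0) (p (nat_lit 0x8012) (nat_lit 0) pn))))))))))))))))))))))))) :=
  Cl.node (nat_lit 0x200004) (nat_lit 2) (by decide +kernel) (ClAll.succ (ClAll.succ ClAll.zero s9) s10)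

def n28 : Cl (O (nat_lit 3)) (R (nat_lit 143521))
    (p (nat_lit 0xc9) (nat_lit 1) (p (nat_lit 0x81) (nat_lit 0) (p (nat_lit 0x101) (nat_lit 1) (p (nat_lit 0x119) (nat_lit 0) (p (nat_lit 0xd1) (nat_lit 0) (p (nat_lit 0x89) (nat_lit 0) (p (nat_lit 0x41) (nat_lit 0) (p (nat_lit 0x8a898a09081a) (nat_lit 0) (p (nat_lit 0xa090988879a) (nat_lit 0) (p (nat_lit 0x87888908071a) (nat_lit 0) (p (nat_lit 0x7080887869a) (nat_lit 0) (p (nat_lit 0x80000800088807060a) (nat_lit 0) (p (nat_lit 0x80000800060786858a) (nat_lit 0) (p (nat_lit 0x8687060502) (nat_lit 0) (p (nat_lit 0x606858482) (nat_lit 0) (p (nat_lit 0x160014) (nat_lit 0) (p (nat_lit 0x68612) (nat_lit 0) (p (nat_lit 0x50592) (nat_lit 0) (p (nat_lit 0x38512) (nat_lit 0) (p (nat_lit 0x50392) (nat_lit 0) (p (nat_lit 0x38312) (nat_lit 0) (p (nat_lit 0x20292) (nat_lit 0) (p (nat_lit 0x38112) (nat_lit 0) (p (nat_lit 0x20092) (nat_lit 0) (p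 (nat_lit 0x8012) (nat_lit 0) pn))))))))))))))))))))))))) :=
  Cl.node (nat_lit 0x200004) (nat_lit 2) (by decide +kernel) (ClAll.succ (ClAll.succ ClAll.zero n14) n15)

def n29 : Cl (O (nat_lit 3)) (R (nat_lit 143521))
    (p (nat_lit 0xc1) (nat_lit 0) (p (nat_lit 0x81) (nat_lit 1) (p (nat_lit 0x101) (nat_lit 1) (p (nat_lit 0x119) (nat_lit 0) (p (nat_lit 0xd1) (nat_lit 0) (p (nat_lit 0x89) (nat_lit 0) (p (nat_lit 0x41) (nat_lit 0) (p (nat_lit 0x8a898a09081a) (nat_lit 0) (p (nat_lit 0xa090988879a) (nat_lit 0) (p (nat_lit 0x87888908071a) (nat_lit 0) (p (nat_lit 0x7080887869a) (nat_lit 0) (p (nat_lit 0x80000800088807060a) (nat_lit 0) (p (nat_lit 0x80000800060786858a) (nat_lit 0) (p (nat_lit 0x8687060502) (nat_lit 0) (p (nat_lit 0x606858482) (nat_lit 0) (p (nat_lit 0x160014) (nat_lit 0) (p (nat_lit 0x68612) (nat_lit 0) (p (nat_lit 0x50592) (nat_lit 0) (p (nat_lit 0x38512) (nat_lit 0) (p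 (nat_lit 0x50392) (nat_lit 0) (p (nat_lit 0x38312) (nat_lit 0) (p (nat_lit 0x20292) (nat_lit 0) (p (nat_lit 0x38112) (nat_lit 0) (p (nat_lit 0x20092) (nat_lit 0) (p (nat_lit 0x8012) (nat_lit 0) pn))))))))))))))))))))))))) :=
  Cl.node (nat_lit 0xc9) (nat_lit 2) (by decide +kernel) (ClAll.succ (ClAll.succ ClAll.zero n16) s18)

def n30 : Cl (O (nat_lit 3)) (R (nat_lit 143521))
    (p (nat_lit 0x101) (nat_lit 0) (p (nat_lit 0x81) (nat_lit 1) (p (nat_lit 0xc1) (nat_lit 1) (p (nat_lit 0x119) (nat_lit 1) (p (nat_lit 0xd1) (nat_lit 0) (p (nat_lit 0x89) (nat_lit 0) (p (nat_lit 0x41) (nat_lit 0) (p (nat_lit 0x8a898a09081a) (nat_lit 0) (p (nat_lit 0xa090988879a) (nat_lit 0) (p (nat_lit 0x87888908071a) (nat_lit 0) (p (nat_lit 0x7080887869a) (nat_lit 0) (p (nat_lit 0x80000800088807060a) (nat_lit 0) (p (nat_lit 0x80000800060786858a) (nat_lit 0) (p (nat_lit 0x8687060502) (nat_lit 0) (p (nat_lit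 0x606858482) (nat_lit 0) (p (nat_lit 0x160014) (nat_lit 0) (p (nat_lit 0x68612) (nat_lit 0) (p (nat_lit 0x50592) (nat_lit 0) (p (nat_lit 0x38512) (nat_lit 0) (p (nat_lit 0x50392) (nat_lit 0) (p (nat_lit 0x38312) (nat_lit 0) (p (nat_lit 0x20292) (nat_lit 0) (p (nat_lit 0x38112) (nat_lit 0) (p (nat_lit 0x20092) (nat_lit 0) (p (nat_lit 0x8012) (nat_lit 0) pn))))))))))))))))))))))))) :=
  Cl.node (nat_lit 0x109) (nat_lit 2) (by decide +kernel) (ClAll.succ (ClAll.succ ClAll.zero s24) s25)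

def n31 : Cl (O (nat_lit 3)) (R (nat_lit 143521))
    (p (nat_lit 0x200004) (nat_lit 0) (p (nat_lit 0x109) (nat_lit 1) (p (nat_lit 0x101) (nat_lit 0) (p (nat_lit 0x111) (nat_lit 0) (p (nat_lit 0xd1) (nat_lit 1) (p (nat_lit 0x89) (nat_lit 0) (p (nat_lit 0x41) (nat_lit 0) (p (nat_lit 0x8a898a09081a) (nat_lit 0) (p (nat_lit 0xa090988879a) (nat_lit 0) (p (nat_lit 0x87888908071a) (nat_lit 0) (p (nat_lit 0x7080887869a) (nat_lit 0) (p (nat_lit 0x80000800088807060a) (nat_lit 0) (p (nat_lit 0x80000800060786858a) (nat_lit 0) (p (nat_lit 0x8687060502) (nat_lit 0) (p (nat_lit 0x606858482) (nat_lit 0) (p (nat_lit 0x160014) (nat_lit 0) (p (nat_lit 0x68612) (nat_lit 0) (p (nat_lit 0x50592) (nat_lit 0) (p (nat_lit 0x38512) (nat_lit 0) (p (nat_lit 0x50392) (nat_lit 0) (p (nat_lit 0x38312) (nat_lit 0) (p (nat_lit 0x20292) (nat_lit 0) (p (nat_lit 0x38112) (nat_lit 0) (p (nat_lit 0x20092) (nat_lit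 0) (p (nat_lit 0x8012) (nat_lit 0) pn))))))))))))))))))))))))) :=
  Cl.node (nat_lit 0x20000c) (nat_lit 2) (by decide +kernel) (ClAll.succ (ClAll.succ ClAll.zero s28) n17)

def n32 : Cl (O (nat_lit 3)) (R (nat_lit 143521))
    (p (nat_lit 0x200004) (nat_lit 1) (p (nat_lit 0x109) (nat_lit 1) (p (nat_lit 0x101) (nat_lit 0) (p (nat_lit 0x111) (nat_lit 0) (p (nat_lit 0xd1) (nat_lit 1) (p (nat_lit 0x89) (nat_lit 0) (p (nat_lit 0x41) (nat_lit 0) (p (nat_lit 0x8a898a09081a) (nat_lit 0) (p (nat_lit 0xa090988879a) (nat_lit 0) (p (nat_lit 0x87888908071a) (nat_lit 0) (p (nat_lit 0x7080887869a) (nat_lit 0) (p (nat_lit 0x80000800088807060a) (nat_lit 0) (p (nat_lit 0x80000800060786858a) (nat_lit 0) (p (nat_lit 0x8687060502) (nat_lit 0) (p (nat_lit 0x606858482) (nat_lit 0) (p (nat_lit 0x160014) (nat_lit 0) (p (nat_lit 0x68612) (nat_lit 0) (p (nat_lit 0x50592) (nat_lit 0) (p (nat_lit 0x38512) (nat_lit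 0) (p (nat_lit 0x50392) (nat_lit 0) (p (nat_lit 0x38312) (nat_lit 0) (p (nat_lit 0x20292) (nat_lit 0) (p (nat_lit 0x38112) (nat_lit 0) (p (nat_lit 0x20092) (nat_lit 0) (p (nat_lit 0x8012) (nat_lit 0) pn))))))))))))))))))))))))) :=
  Cl.node (nat_lit 0xb0014) (nat_lit 2) (by decide +kernel) (ClAll.succ (ClAll.succ ClAll.zero n18) s35)

def n33 : Cl (O (nat_lit 3)) (R (nat_lit 143521))
    (p (nat_lit 0x200004) (nat_lit 0) (p (nat_lit 0x81) (nat_lit 0) (p (nat_lit 0x101) (nat_lit 1) (p (nat_lit 0x111) (nat_lit 0) (p (nat_lit 0xd1) (nat_lit 1) (p (nat_lit 0x89) (nat_lit 0) (p (nat_lit 0x41) (nat_lit 0) (p (nat_lit 0x8a898a09081a) (nat_lit 0) (p (nat_lit 0xa090988879a) (nat_lit 0) (p (nat_lit 0x87888908071a) (nat_lit 0) (p (nat_lit 0x7080887869a) (nat_lit 0) (p (nat_lit 0x80000800088807060a) (nat_lit 0) (p (nat_lit 0x80000800060786858a) (nat_lit 0) (p (nat_lit 0x8687060502) (nat_lit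 0) (p (nat_lit 0x606858482) (nat_lit 0) (p (nat_lit 0x160014) (nat_lit 0) (p (nat_lit 0x68612) (nat_lit 0) (p (nat_lit 0x50592) (nat_lit 0) (p (nat_lit 0x38512) (nat_lit 0) (p (nat_lit 0x50392) (nat_lit 0) (p (nat_lit 0x38312) (nat_lit 0) (p (nat_lit 0x20292) (nat_lit 0) (p (nat_lit 0x38112) (nat_lit 0) (p (nat_lit 0x20092) (nat_lit 0) (p (nat_lit 0x8012) (nat_lit 0) pn))))))))))))))))))))))))) :=
  Cl.node (nat_lit 0x20000c) (nat_lit 2) (by decide +kernel) (ClAll.succ (ClAll.succ ClAll.zero s36) n19)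

def n34 : Cl (O (nat_lit 3)) (R (nat_lit 143521))
    (p (nat_lit 0x200004) (nat_lit 1) (p (nat_lit 0x81) (nat_lit 0) (p (nat_lit 0x101) (nat_lit 1) (p (nat_lit 0x111) (nat_lit 0) (p (nat_lit 0xd1) (nat_lit 1) (p (nat_lit 0x89) (nat_lit 0) (p (nat_lit 0x41) (nat_lit 0) (p (nat_lit 0x8a898a09081a) (nat_lit 0) (p (nat_lit 0xa090988879a) (nat_lit 0) (p (nat_lit 0x87888908071a) (nat_lit 0) (p (nat_lit 0x7080887869a) (nat_lit 0) (p (nat_lit 0x80000800088807060a) (nat_lit 0) (p (nat_lit 0x80000800060786858a) (nat_lit 0) (p (nat_lit 0x8687060502) (nat_lit 0) (p (nat_lit 0x606858482) (nat_lit 0) (p (nat_lit 0x160014) (nat_lit 0) (p (nat_lit 0x68612) (nat_lit 0) (p (nat_lit 0x50592) (nat_lit 0) (p (nat_lit 0x38512) (nat_lit 0) (p (nat_lit 0x50392) (nat_lit 0) (p (nat_lit 0x38312) (nat_lit 0) (p (nat_lit 0x20292) (nat_lit 0) (p (nat_lit 0x38112) (nat_lit 0) (p (nat_lit 0x20092) (nat_lit 0)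 (p (nat_lit 0x8012) (nat_lit 0) pn))))))))))))))))))))))))) :=
  Cl.node (nat_lit 0xb0014) (nat_lit 2) (by decide +kernel) (ClAll.succ (ClAll.succ ClAll.zero n20) s42)

def n35 : Cl (O (nat_lit 3)) (R (nat_lit 143521))
    (p (nat_lit 0xc1) (nat_lit 0) (p (nat_lit 0x81) (nat_lit 1) (p (nat_lit 0x101) (nat_lit 1) (p (nat_lit 0x111) (nat_lit 0) (p (nat_lit 0xd1) (nat_lit 1) (p (nat_lit 0x89) (nat_lit 0) (p (nat_lit 0x41) (nat_lit 0) (p (nat_lit 0x8a898a09081a) (nat_lit 0) (p (nat_lit 0xa090988879a) (nat_lit 0) (p (nat_lit 0x87888908071a) (nat_lit 0) (p (nat_lit 0x7080887869a) (nat_lit 0) (p (nat_lit 0x80000800088807060a) (nat_lit 0) (p (nat_lit 0x80000800060786858a) (nat_lit 0) (p (nat_lit 0x8687060502) (nat_lit 0) (p (nat_lit 0x606858482) (nat_lit 0) (p (nat_lit 0x160014) (nat_lit 0) (p (nat_lit 0x68612) (nat_lit 0) (p (nat_lit 0x50592) (nat_lit 0) (p (nat_lit 0x38512) (nat_lit 0)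 (p (nat_lit 0x50392) (nat_lit 0) (p (nat_lit 0x38312) (nat_lit 0) (p (nat_lit 0x20292) (nat_lit 0) (p (nat_lit 0x38112) (nat_lit 0) (p (nat_lit 0x20092) (nat_lit 0) (p (nat_lit 0x8012) (nat_lit 0) pn))))))))))))))))))))))))) :=
  Cl.node (nat_lit 0x200004) (nat_lit 2) (by decide +kernel) (ClAll.succ (ClAll.succ ClAll.zero n21) n22)

def n36 : Cl (O (nat_lit 3)) (R (nat_lit 143521))
    (p (nat_lit 0x111) (nat_lit 1) (p (nat_lit 0x109) (nat_lit 0) (p (nat_lit 0x101) (nat_lit 0) (p (nat_lit 0x119) (nat_lit 0) (p (nat_lit 0xc9) (nat_lit 0) (p (nat_lit 0x89) (nat_lit 1) (p (nat_lit 0x41) (nat_lit 0) (p (nat_lit 0x8a898a09081a) (nat_lit 0) (p (nat_lit 0xa090988879a) (nat_lit 0) (p (nat_lit 0x87888908071a) (nat_lit 0) (p (nat_lit 0x7080887869a) (nat_lit 0) (p (nat_lit 0x80000800088807060a) (nat_lit 0) (p (nat_lit 0x80000800060786858a) (nat_lit 0) (p (nat_lit 0x8687060502) (nat_lit 0) (p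 (nat_lit 0x606858482) (nat_lit 0) (p (nat_lit 0x160014) (nat_lit 0) (p (nat_lit 0x68612) (nat_lit 0) (p (nat_lit 0x50592) (nat_lit 0) (p (nat_lit 0x38512) (nat_lit 0) (p (nat_lit 0x50392) (nat_lit 0) (p (nat_lit 0x38312) (nat_lit 0) (p (nat_lit 0x20292) (nat_lit 0) (p (nat_lit 0x38112) (nat_lit 0) (p (nat_lit 0x20092) (nat_lit 0) (p (nat_lit 0x8012) (nat_lit 0) pn))))))))))))))))))))))))) :=
  Cl.node (nat_lit 0xd1) (nat_lit 2) (by decide +kernel) (ClAll.succ (ClAll.succ ClAll.zero s54) n23)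

def n37 : Cl (O (nat_lit 3)) (R (nat_lit 143521))
    (p (nat_lit 0xd1) (nat_lit 1) (p (nat_lit 0x109) (nat_lit 1) (p (nat_lit 0x101) (nat_lit 0) (p (nat_lit 0x119) (nat_lit 0) (p (nat_lit 0xc9) (nat_lit 0) (p (nat_lit 0x89) (nat_lit 1) (p (nat_lit 0x41) (nat_lit 0) (p (nat_lit 0x8a898a09081a) (nat_lit 0) (p (nat_lit 0xa090988879a) (nat_lit 0) (p (nat_lit 0x87888908071a) (nat_lit 0) (p (nat_lit 0x7080887869a) (nat_lit 0) (p (nat_lit 0x80000800088807060a) (nat_lit 0) (p (nat_lit 0x80000800060786858a) (nat_lit 0) (p (nat_lit 0x8687060502) (nat_lit 0) (p (nat_lit 0x606858482) (nat_lit 0) (p (nat_lit 0x160014) (nat_lit 0) (p (nat_lit 0x68612) (nat_lit 0) (p (nat_lit 0x50592) (nat_lit 0) (p (nat_lit 0x38512) (nat_lit 0) (p (nat_lit 0x50392) (nat_lit 0) (p (nat_lit 0x38312) (nat_lit 0) (p (nat_lit 0x20292) (nat_lit 0) (p (nat_lit 0x38112) (nat_lit 0) (p (nat_lit 0x20092) (nat_lit 0) (p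 (nat_lit 0x8012) (nat_lit 0) pn))))))))))))))))))))))))) :=
  Cl.node (nat_lit 0x200004) (nat_lit 2) (by decide +kernel) (ClAll.succ (ClAll.succ ClAll.zero s61) s62)

def n38 : Cl (O (nat_lit 3)) (R (nat_lit 143521))
    (p (nat_lit 0x111) (nat_lit 1) (p (nat_lit 0xd1) (nat_lit 1) (p (nat_lit 0xc1) (nat_lit 0) (p (nat_lit 0x119) (nat_lit 1) (p (nat_lit 0xc9) (nat_lit 0) (p (nat_lit 0x89) (nat_lit 1) (p (nat_lit 0x41) (nat_lit 0) (p (nat_lit 0x8a898a09081a) (nat_lit 0) (p (nat_lit 0xa090988879a) (nat_lit 0) (p (nat_lit 0x87888908071a) (nat_lit 0) (p (nat_lit 0x7080887869a) (nat_lit 0) (p (nat_lit 0x80000800088807060a) (nat_lit 0) (p (nat_lit 0x80000800060786858a) (nat_lit 0) (p (nat_lit 0x8687060502) (nat_lit 0) (p (nat_lit 0x606858482) (nat_lit 0) (p (nat_lit 0x160014) (nat_lit 0) (p (nat_lit 0x68612) (nat_lit 0) (p (nat_lit 0x50592) (nat_lit 0) (p (nat_lit 0x38512) (nat_lit 0) (p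 (nat_lit 0x50392) (nat_lit 0) (p (nat_lit 0x38312) (nat_lit 0) (p (nat_lit 0x20292) (nat_lit 0) (p (nat_lit 0x38112) (nat_lit 0) (p (nat_lit 0x20092) (nat_lit 0) (p (nat_lit 0x8012) (nat_lit 0) pn))))))))))))))))))))))))) :=
  Cl.node (nat_lit 0x200004) (nat_lit 2) (by decide +kernel) (ClAll.succ (ClAll.succ ClAll.zero s68) s69)

def n39 : Cl (O (nat_lit 3)) (R (nat_lit 143521))
    (p (nat_lit 0x111) (nat_lit 1) (p (nat_lit 0x101) (nat_lit 0) (p (nat_lit 0xc1) (nat_lit 1) (p (nat_lit 0x119) (nat_lit 1) (p (nat_lit 0xc9) (nat_lit 0) (p (nat_lit 0x89) (nat_lit 1) (p (nat_lit 0x41) (nat_lit 0) (p (nat_lit 0x8a898a09081a) (nat_lit 0) (p (nat_lit 0xa090988879a) (nat_lit 0) (p (nat_lit 0x87888908071a) (nat_lit 0) (p (nat_lit 0x7080887869a) (nat_lit 0) (p (nat_lit 0x80000800088807060a) (nat_lit 0) (p (nat_lit 0x80000800060786858a) (nat_lit 0) (p (nat_lit 0x8687060502) (nat_lit 0) (p (nat_lit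 0x606858482) (nat_lit 0) (p (nat_lit 0x160014) (nat_lit 0) (p (nat_lit 0x68612) (nat_lit 0) (p (nat_lit 0x50592) (nat_lit 0) (p (nat_lit 0x38512) (nat_lit 0) (p (nat_lit 0x50392) (nat_lit 0) (p (nat_lit 0x38312) (nat_lit 0) (p (nat_lit 0x20292) (nat_lit 0) (p (nat_lit 0x38112) (nat_lit 0) (p (nat_lit 0x20092) (nat_lit 0) (p (nat_lit 0x8012) (nat_lit 0) pn))))))))))))))))))))))))) :=
  Cl.node (nat_lit 0x200004) (nat_lit 2) (by decide +kernel) (ClAll.succ (ClAll.succ ClAll.zero s71) s72)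

def n40 : Cl (O (nat_lit 3)) (R (nat_lit 143521))
    (p (nat_lit 0x89) (nat_lit 0) (p (nat_lit 0x109) (nat_lit 1) (p (nat_lit 0x101) (nat_lit 0) (p (nat_lit 0x119) (nat_lit 0) (p (nat_lit 0xd1) (nat_lit 0) (p (nat_lit 0x81) (nat_lit 0) (p (nat_lit 0x41) (nat_lit 1) (p (nat_lit 0x8a898a09081a) (nat_lit 0) (p (nat_lit 0xa090988879a) (nat_lit 0) (p (nat_lit 0x87888908071a) (nat_lit 0) (p (nat_lit 0x7080887869a) (nat_lit 0) (p (nat_lit 0x80000800088807060a) (nat_lit 0) (p (nat_lit 0x80000800060786858a) (nat_lit 0) (p (nat_lit 0x8687060502) (nat_lit 0) (p (nat_lit 0x606858482) (nat_lit 0) (p (nat_lit 0x160014) (nat_lit 0) (p (nat_lit 0x68612) (nat_lit 0) (p (nat_lit 0x50592) (nat_lit 0) (p (nat_lit 0x38512) (nat_lit 0) (p (nat_lit 0x50392) (nat_lit 0) (p (nat_lit 0x38312) (nat_lit 0) (p (nat_lit 0x20292) (nat_lit 0) (p (nat_lit 0x38112) (nat_lit 0) (p (nat_lit 0x20092) (nat_lit 0) (p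 (nat_lit 0x8012) (nat_lit 0) pn))))))))))))))))))))))))) :=
  Cl.node (nat_lit 0x200004) (nat_lit 2) (by decide +kernel) (ClAll.succ (ClAll.succ ClAll.zero s79) s80)

def n41 : Cl (O (nat_lit 3)) (R (nat_lit 143521))
    (p (nat_lit 0x89) (nat_lit 1) (p (nat_lit 0x109) (nat_lit 1) (p (nat_lit 0x101) (nat_lit 0) (p (nat_lit 0x119) (nat_lit 0) (p (nat_lit 0xd1) (nat_lit 0) (p (nat_lit 0x81) (nat_lit 0) (p (nat_lit 0x41) (nat_lit 1) (p (nat_lit 0x8a898a09081a) (nat_lit 0) (p (nat_lit 0xa090988879a) (nat_lit 0) (p (nat_lit 0x87888908071a) (nat_lit 0) (p (nat_lit 0x7080887869a) (nat_lit 0) (p (nat_lit 0x80000800088807060a) (nat_lit 0) (p (nat_lit 0x80000800060786858a) (nat_lit 0) (p (nat_lit 0x8687060502) (nat_lit 0) (p (nat_lit 0x606858482) (nat_lit 0) (p (nat_lit 0x160014) (nat_lit 0) (p (nat_lit 0x68612) (nat_lit 0) (p (nat_lit 0x50592) (nat_lit 0) (p (nat_lit 0x38512) (nat_lit 0)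 (p (nat_lit 0x50392) (nat_lit 0) (p (nat_lit 0x38312) (nat_lit 0) (p (nat_lit 0x20292) (nat_lit 0) (p (nat_lit 0x38112) (nat_lit 0) (p (nat_lit 0x20092) (nat_lit 0) (p (nat_lit 0x8012) (nat_lit 0) pn))))))))))))))))))))))))) :=
  Cl.node (nat_lit 0xc9) (nat_lit 2) (by decide +kernel) (ClAll.succ (ClAll.succ ClAll.zero s81) s82)

def n42 : Cl (O (nat_lit 3)) (R (nat_lit 143521))
    (p (nat_lit 0x89) (nat_lit 1) (p (nat_lit 0xc1) (nat_lit 0) (p (nat_lit 0x101) (nat_lit 1) (p (nat_lit 0x119) (nat_lit 0) (p (nat_lit 0xd1) (nat_lit 0) (p (nat_lit 0x81) (nat_lit 0) (p (nat_lit 0x41) (nat_lit 1) (p (nat_lit 0x8a898a09081a) (nat_lit 0) (p (nat_lit 0xa090988879a) (nat_lit 0) (p (nat_lit 0x87888908071a) (nat_lit 0) (p (nat_lit 0x7080887869a) (nat_lit 0) (p (nat_lit 0x80000800088807060a) (nat_lit 0) (p (nat_lit 0x80000800060786858a) (nat_lit 0) (p (nat_lit 0x8687060502) (nat_lit 0) (p (nat_lit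 0x606858482) (nat_lit 0) (p (nat_lit 0x160014) (nat_lit 0) (p (nat_lit 0x68612) (nat_lit 0) (p (nat_lit 0x50592) (nat_lit 0) (p (nat_lit 0x38512) (nat_lit 0) (p (nat_lit 0x50392) (nat_lit 0) (p (nat_lit 0x38312) (nat_lit 0) (p (nat_lit 0x20292) (nat_lit 0) (p (nat_lit 0x38112) (nat_lit 0) (p (nat_lit 0x20092) (nat_lit 0) (p (nat_lit 0x8012) (nat_lit 0) pn))))))))))))))))))))))))) :=
  Cl.node (nat_lit 0xc9) (nat_lit 2) (by decide +kernel) (ClAll.succ (ClAll.succ ClAll.zero s84) s85)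

def n43 : Cl (O (nat_lit 3)) (R (nat_lit 143521))
    (p (nat_lit 0x89) (nat_lit 1) (p (nat_lit 0x109) (nat_lit 1) (p (nat_lit 0x101) (nat_lit 0) (p (nat_lit 0x111) (nat_lit 0) (p (nat_lit 0xd1) (nat_lit 1) (p (nat_lit 0x81) (nat_lit 0) (p (nat_lit 0x41) (nat_lit 1) (p (nat_lit 0x8a898a09081a) (nat_lit 0) (p (nat_lit 0xa090988879a) (nat_lit 0) (p (nat_lit 0x87888908071a) (nat_lit 0) (p (nat_lit 0x7080887869a) (nat_lit 0) (p (nat_lit 0x80000800088807060a) (nat_lit 0) (p (nat_lit 0x80000800060786858a) (nat_lit 0) (p (nat_lit 0x8687060502) (nat_lit 0) (p (nat_lit 0x606858482) (nat_lit 0) (p (nat_lit 0x160014) (nat_lit 0) (p (nat_lit 0x68612) (nat_lit 0) (p (nat_lit 0x50592) (nat_lit 0) (p (nat_lit 0x38512) (nat_lit 0) (p (nat_lit 0x50392) (nat_lit 0) (p (nat_lit 0x38312) (nat_lit 0) (p (nat_lit 0x20292) (nat_lit 0) (p (nat_lit 0x38112) (nat_lit 0) (p (nat_lit 0x20092) (nat_lit 0) (p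 (nat_lit 0x8012) (nat_lit 0) pn))))))))))))))))))))))))) :=
  Cl.node (nat_lit 0xc9) (nat_lit 2) (by decide +kernel) (ClAll.succ (ClAll.succ ClAll.zero n24) s96)

def n44 : Cl (O (nat_lit 3)) (R (nat_lit 143521))
    (p (nat_lit 0xc9) (nat_lit 0) (p (nat_lit 0x89) (nat_lit 1) (p (nat_lit 0x101) (nat_lit 1) (p (nat_lit 0x111) (nat_lit 0) (p (nat_lit 0xd1) (nat_lit 1) (p (nat_lit 0x81) (nat_lit 0) (p (nat_lit 0x41) (nat_lit 1) (p (nat_lit 0x8a898a09081a) (nat_lit 0) (p (nat_lit 0xa090988879a) (nat_lit 0) (p (nat_lit 0x87888908071a) (nat_lit 0) (p (nat_lit 0x7080887869a) (nat_lit 0) (p (nat_lit 0x80000800088807060a) (nat_lit 0) (p (nat_lit 0x80000800060786858a) (nat_lit 0) (p (nat_lit 0x8687060502) (nat_lit 0) (p (nat_lit 0x606858482) (nat_lit 0) (p (nat_lit 0x160014) (nat_lit 0) (p (nat_lit 0x68612) (nat_lit 0) (p (nat_lit 0x50592) (nat_lit 0) (p (nat_lit 0x38512) (nat_lit 0) (p (nat_lit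 0x50392) (nat_lit 0) (p (nat_lit 0x38312) (nat_lit 0) (p (nat_lit 0x20292) (nat_lit 0) (p (nat_lit 0x38112) (nat_lit 0) (p (nat_lit 0x20092) (nat_lit 0) (p (nat_lit 0x8012) (nat_lit 0) pn))))))))))))))))))))))))) :=
  Cl.node (nat_lit 0x200004) (nat_lit 2) (by decide +kernel) (ClAll.succ (ClAll.succ ClAll.zero n25) s101)

def n45 : Cl (O (nat_lit 3)) (R (nat_lit 143521))
    (p (nat_lit 0x109) (nat_lit 1) (p (nat_lit 0x101) (nat_lit 0) (p (nat_lit 0x119) (nat_lit 0) (p (nat_lit 0xd1) (nat_lit 0) (p (nat_lit 0x89) (nat_lit 0) (p (nat_lit 0x41) (nat_lit 0) (p (nat_lit 0x8a898a09081a) (nat_lit 0) (p (nat_lit 0xa090988879a) (nat_lit 0) (p (nat_lit 0x87888908071a) (nat_lit 0) (p (nat_lit 0x7080887869a) (nat_lit 0) (p (nat_lit 0x80000800088807060a) (nat_lit 0) (p (nat_lit 0x80000800060786858a) (nat_lit 0) (p (nat_lit 0x8687060502) (nat_lit 0) (p (nat_lit 0x606858482) (nat_lit 0) (p (nat_lit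 0x160014) (nat_lit 0) (p (nat_lit 0x68612) (nat_lit 0) (p (nat_lit 0x50592) (nat_lit 0) (p (nat_lit 0x38512) (nat_lit 0) (p (nat_lit 0x50392) (nat_lit 0) (p (nat_lit 0x38312) (nat_lit 0) (p (nat_lit 0x20292) (nat_lit 0) (p (nat_lit 0x38112) (nat_lit 0) (p (nat_lit 0x20092) (nat_lit 0) (p (nat_lit 0x8012) (nat_lit 0) pn)))))))))))))))))))))))) :=
  Cl.node (nat_lit 0xc9) (nat_lit 2) (by decide +kernel) (ClAll.succ (ClAll.succ ClAll.zero s1) n26)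

def n46 : Cl (O (nat_lit 3)) (R (nat_lit 143521))
    (p (nat_lit 0x81) (nat_lit 0) (p (nat_lit 0x101) (nat_lit 1) (p (nat_lit 0x119) (nat_lit 0) (p (nat_lit 0xd1) (nat_lit 0) (p (nat_lit 0x89) (nat_lit 0) (p (nat_lit 0x41) (nat_lit 0) (p (nat_lit 0x8a898a09081a) (nat_lit 0) (p (nat_lit 0xa090988879a) (nat_lit 0) (p (nat_lit 0x87888908071a) (nat_lit 0) (p (nat_lit 0x7080887869a) (nat_lit 0) (p (nat_lit 0x80000800088807060a) (nat_lit 0) (p (nat_lit 0x80000800060786858a) (nat_lit 0) (p (nat_lit 0x8687060502) (nat_lit 0) (p (nat_lit 0x606858482) (nat_lit 0) (p (nat_lit 0x160014) (nat_lit 0) (p (nat_lit 0x68612) (nat_lit 0) (p (nat_lit 0x50592) (nat_lit 0) (p (nat_lit 0x38512) (nat_lit 0) (p (nat_lit 0x50392) (nat_lit 0) (p (nat_lit 0x38312) (nat_lit 0) (p (nat_lit 0x20292) (nat_lit 0) (p (nat_lit 0x38112) (nat_lit 0) (p (nat_lit 0x20092) (nat_lit 0) (p (nat_lit 0x8012) (nat_lit 0)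 pn)))))))))))))))))))))))) :=
  Cl.node (nat_lit 0xc9) (nat_lit 2) (by decide +kernel) (ClAll.succ (ClAll.succ ClAll.zero n27) n28)

def n47 : Cl (O (nat_lit 3)) (R (nat_lit 143521))
    (p (nat_lit 0x81) (nat_lit 1) (p (nat_lit 0x101) (nat_lit 1) (p (nat_lit 0x119) (nat_lit 0) (p (nat_lit 0xd1) (nat_lit 0) (p (nat_lit 0x89) (nat_lit 0) (p (nat_lit 0x41) (nat_lit 0) (p (nat_lit 0x8a898a09081a) (nat_lit 0) (p (nat_lit 0xa090988879a) (nat_lit 0) (p (nat_lit 0x87888908071a) (nat_lit 0) (p (nat_lit 0x7080887869a) (nat_lit 0) (p (nat_lit 0x80000800088807060a) (nat_lit 0) (p (nat_lit 0x80000800060786858a) (nat_lit 0) (p (nat_lit 0x8687060502) (nat_lit 0) (p (nat_lit 0x606858482) (nat_lit 0) (p (nat_lit 0x160014) (nat_lit 0) (p (nat_lit 0x68612) (nat_lit 0) (p (nat_lit 0x50592) (nat_lit 0) (p (nat_lit 0x38512) (nat_lit 0) (p (nat_lit 0x50392) (nat_lit 0) (p (nat_lit 0x38312) (nat_lit 0)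 (p (nat_lit 0x20292) (nat_lit 0) (p (nat_lit 0x38112) (nat_lit 0) (p (nat_lit 0x20092) (nat_lit 0) (p (nat_lit 0x8012) (nat_lit 0) pn)))))))))))))))))))))))) :=
  Cl.node (nat_lit 0xc1) (nat_lit 2) (by decide +kernel) (ClAll.succ (ClAll.succ ClAll.zero n29) s19)

def n48 : Cl (O (nat_lit 3)) (R (nat_lit 143521))
    (p (nat_lit 0xc9) (nat_lit 1) (p (nat_lit 0xc1) (nat_lit 0) (p (nat_lit 0x119) (nat_lit 1) (p (nat_lit 0xd1) (nat_lit 0) (p (nat_lit 0x89) (nat_lit 0) (p (nat_lit 0x41) (nat_lit 0) (p (nat_lit 0x8a898a09081a) (nat_lit 0) (p (nat_lit 0xa090988879a) (nat_lit 0) (p (nat_lit 0x87888908071a) (nat_lit 0) (p (nat_lit 0x7080887869a) (nat_lit 0) (p (nat_lit 0x80000800088807060a) (nat_lit 0) (p (nat_lit 0x80000800060786858a) (nat_lit 0) (p (nat_lit 0x8687060502) (nat_lit 0) (p (nat_lit 0x606858482) (nat_lit 0) (p (nat_lit 0x160014) (nat_lit 0) (p (nat_lit 0x68612) (nat_lit 0) (p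 (nat_lit 0x50592) (nat_lit 0) (p (nat_lit 0x38512) (nat_lit 0) (p (nat_lit 0x50392) (nat_lit 0) (p (nat_lit 0x38312) (nat_lit 0) (p (nat_lit 0x20292) (nat_lit 0) (p (nat_lit 0x38112) (nat_lit 0) (p (nat_lit 0x20092) (nat_lit 0) (p (nat_lit 0x8012) (nat_lit 0) pn)))))))))))))))))))))))) :=
  Cl.node (nat_lit 0x109) (nat_lit 2) (by decide +kernel) (ClAll.succ (ClAll.succ ClAll.zero s21) s22)

def n49 : Cl (O (nat_lit 3)) (R (nat_lit 143521))
    (p (nat_lit 0x81) (nat_lit 1) (p (nat_lit 0xc1) (nat_lit 1) (p (nat_lit 0x119) (nat_lit 1) (p (nat_lit 0xd1) (nat_lit 0) (p (nat_lit 0x89) (nat_lit 0) (p (nat_lit 0x41) (nat_lit 0) (p (nat_lit 0x8a898a09081a) (nat_lit 0) (p (nat_lit 0xa090988879a) (nat_lit 0) (p (nat_lit 0x87888908071a) (nat_lit 0) (p (nat_lit 0x7080887869a) (nat_lit 0) (p (nat_lit 0x80000800088807060a) (nat_lit 0) (p (nat_lit 0x80000800060786858a) (nat_lit 0) (p (nat_lit 0x8687060502)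 (nat_lit 0) (p (nat_lit 0x606858482) (nat_lit 0) (p (nat_lit 0x160014) (nat_lit 0) (p (nat_lit 0x68612) (nat_lit 0) (p (nat_lit 0x50592) (nat_lit 0) (p (nat_lit 0x38512) (nat_lit 0) (p (nat_lit 0x50392) (nat_lit 0) (p (nat_lit 0x38312) (nat_lit 0) (p (nat_lit 0x20292) (nat_lit 0) (p (nat_lit 0x38112) (nat_lit 0) (p (nat_lit 0x20092) (nat_lit 0) (p (nat_lit 0x8012) (nat_lit 0) pn)))))))))))))))))))))))) :=
  Cl.node (nat_lit 0x101) (nat_lit 2) (by decide +kernel) (ClAll.succ (ClAll.succ ClAll.zero n30) s26)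

def n50 : Cl (O (nat_lit 3)) (R (nat_lit 143521))
    (p (nat_lit 0x109) (nat_lit 1) (p (nat_lit 0x101) (nat_lit 0) (p (nat_lit 0x111) (nat_lit 0) (p (nat_lit 0xd1) (nat_lit 1) (p (nat_lit 0x89) (nat_lit 0) (p (nat_lit 0x41) (nat_lit 0) (p (nat_lit 0x8a898a09081a) (nat_lit 0) (p (nat_lit 0xa090988879a) (nat_lit 0) (p (nat_lit 0x87888908071a) (nat_lit 0) (p (nat_lit 0x7080887869a) (nat_lit 0) (p (nat_lit 0x80000800088807060a) (nat_lit 0) (p (nat_lit 0x80000800060786858a) (nat_lit 0) (p (nat_lit 0x8687060502) (nat_lit 0) (p (nat_lit 0x606858482) (nat_lit 0) (p (nat_lit 0x160014) (nat_lit 0) (p (nat_lit 0x68612) (nat_lit 0) (p (nat_lit 0x50592) (nat_lit 0) (p (nat_lit 0x38512) (nat_lit 0) (p (nat_lit 0x50392) (nat_lit 0) (p (nat_lit 0x38312) (nat_lit 0) (p (nat_lit 0x20292) (nat_lit 0) (p (nat_lit 0x38112) (nat_lit 0) (p (nat_lit 0x20092) (nat_lit 0) (p (nat_lit 0x8012) (nat_lit 0)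 pn)))))))))))))))))))))))) :=
  Cl.node (nat_lit 0x200004) (nat_lit 2) (by decide +kernel) (ClAll.succ (ClAll.succ ClAll.zero n31) n32)

def n51 : Cl (O (nat_lit 3)) (R (nat_lit 143521))
    (p (nat_lit 0x81) (nat_lit 0) (p (nat_lit 0x101) (nat_lit 1) (p (nat_lit 0x111) (nat_lit 0) (p (nat_lit 0xd1) (nat_lit 1) (p (nat_lit 0x89) (nat_lit 0) (p (nat_lit 0x41) (nat_lit 0) (p (nat_lit 0x8a898a09081a) (nat_lit 0) (p (nat_lit 0xa090988879a) (nat_lit 0) (p (nat_lit 0x87888908071a) (nat_lit 0) (p (nat_lit 0x7080887869a) (nat_lit 0) (p (nat_lit 0x80000800088807060a) (nat_lit 0) (p (nat_lit 0x80000800060786858a) (nat_lit 0) (p (nat_lit 0x8687060502) (nat_lit 0) (p (nat_lit 0x606858482) (nat_lit 0) (p (nat_lit 0x160014) (nat_lit 0) (p (nat_lit 0x68612) (nat_lit 0) (p (nat_lit 0x50592) (nat_lit 0) (p (nat_lit 0x38512) (nat_lit 0) (p (nat_lit 0x50392) (nat_lit 0) (p (nat_lit 0x38312) (nat_lit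 0) (p (nat_lit 0x20292) (nat_lit 0) (p (nat_lit 0x38112) (nat_lit 0) (p (nat_lit 0x20092) (nat_lit 0) (p (nat_lit 0x8012) (nat_lit 0) pn)))))))))))))))))))))))) :=
  Cl.node (nat_lit 0x200004) (nat_lit 2) (by decide +kernel) (ClAll.succ (ClAll.succ ClAll.zero n33) n34)

def n52 : Cl (O (nat_lit 3)) (R (nat_lit 143521))
    (p (nat_lit 0x81) (nat_lit 1) (p (nat_lit 0x101) (nat_lit 1) (p (nat_lit 0x111) (nat_lit 0) (p (nat_lit 0xd1) (nat_lit 1) (p (nat_lit 0x89) (nat_lit 0) (p (nat_lit 0x41) (nat_lit 0) (p (nat_lit 0x8a898a09081a) (nat_lit 0) (p (nat_lit 0xa090988879a) (nat_lit 0) (p (nat_lit 0x87888908071a) (nat_lit 0) (p (nat_lit 0x7080887869a) (nat_lit 0) (p (nat_lit 0x80000800088807060a) (nat_lit 0) (p (nat_lit 0x80000800060786858a) (nat_lit 0) (p (nat_lit 0x8687060502) (nat_lit 0) (p (nat_lit 0x606858482) (nat_lit 0) (p (nat_lit 0x160014) (nat_lit 0) (p (nat_lit 0x68612) (nat_lit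 0) (p (nat_lit 0x50592) (nat_lit 0) (p (nat_lit 0x38512) (nat_lit 0) (p (nat_lit 0x50392) (nat_lit 0) (p (nat_lit 0x38312) (nat_lit 0) (p (nat_lit 0x20292) (nat_lit 0) (p (nat_lit 0x38112) (nat_lit 0) (p (nat_lit 0x20092) (nat_lit 0) (p (nat_lit 0x8012) (nat_lit 0) pn)))))))))))))))))))))))) :=
  Cl.node (nat_lit 0xc1) (nat_lit 2) (by decide +kernel) (ClAll.succ (ClAll.succ ClAll.zero n35) s48)

def n53 : Cl (O (nat_lit 3)) (R (nat_lit 143521))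
    (p (nat_lit 0xc1) (nat_lit 1) (p (nat_lit 0x81) (nat_lit 1) (p (nat_lit 0x111) (nat_lit 1) (p (nat_lit 0xd1) (nat_lit 1) (p (nat_lit 0x89) (nat_lit 0) (p (nat_lit 0x41) (nat_lit 0) (p (nat_lit 0x8a898a09081a) (nat_lit 0) (p (nat_lit 0xa090988879a) (nat_lit 0) (p (nat_lit 0x87888908071a) (nat_lit 0) (p (nat_lit 0x7080887869a) (nat_lit 0) (p (nat_lit 0x80000800088807060a) (nat_lit 0) (p (nat_lit 0x80000800060786858a) (nat_lit 0) (p (nat_lit 0x8687060502) (nat_lit 0) (p (nat_lit 0x606858482) (nat_lit 0) (p (nat_lit 0x160014) (nat_lit 0) (p (nat_lit 0x68612) (nat_lit 0) (p (nat_lit 0x50592) (nat_lit 0) (p (nat_lit 0x38512) (nat_lit 0) (p (nat_lit 0x50392) (nat_lit 0) (p (nat_lit 0x38312) (nat_lit 0) (p (nat_lit 0x20292) (nat_lit 0) (p (nat_lit 0x38112) (nat_lit 0) (p (nat_lit 0x20092) (nat_lit 0) (p (nat_lit 0x8012) (nat_lit 0) pn)))))))))))))))))))))))) :=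
  Cl.node (nat_lit 0x101) (nat_lit 2) (by decide +kernel) (ClAll.succ (ClAll.succ ClAll.zero s51) s52)

def n54 : Cl (O (nat_lit 3)) (R (nat_lit 143521))
    (p (nat_lit 0x109) (nat_lit 0) (p (nat_lit 0x101) (nat_lit 0) (p (nat_lit 0x119) (nat_lit 0) (p (nat_lit 0xc9) (nat_lit 0) (p (nat_lit 0x89) (nat_lit 1) (p (nat_lit 0x41) (nat_lit 0) (p (nat_lit 0x8a898a09081a) (nat_lit 0) (p (nat_lit 0xa090988879a) (nat_lit 0) (p (nat_lit 0x87888908071a) (nat_lit 0) (p (nat_lit 0x7080887869a) (nat_lit 0) (p (nat_lit 0x80000800088807060a) (nat_lit 0) (p (nat_lit 0x80000800060786858a) (nat_lit 0) (p (nat_lit 0x8687060502) (nat_lit 0) (p (nat_lit 0x606858482) (nat_lit 0) (p (nat_lit 0x160014) (nat_lit 0) (p (nat_lit 0x68612) (nat_lit 0) (p (nat_lit 0x50592) (nat_lit 0) (p (nat_lit 0x38512) (nat_lit 0) (p (nat_lit 0x50392) (nat_lit 0) (p (nat_lit 0x38312) (nat_lit 0) (p (nat_lit 0x20292) (nat_lit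 0) (p (nat_lit 0x38112) (nat_lit 0) (p (nat_lit 0x20092) (nat_lit 0) (p (nat_lit 0x8012) (nat_lit 0) pn)))))))))))))))))))))))) :=
  Cl.node (nat_lit 0x111) (nat_lit 2) (by decide +kernel) (ClAll.succ (ClAll.succ ClAll.zero s53) n36)

def n55 : Cl (O (nat_lit 3)) (R (nat_lit 143521))
    (p (nat_lit 0x109) (nat_lit 1) (p (nat_lit 0x101) (nat_lit 0) (p (nat_lit 0x119) (nat_lit 0) (p (nat_lit 0xc9) (nat_lit 0) (p (nat_lit 0x89) (nat_lit 1) (p (nat_lit 0x41) (nat_lit 0) (p (nat_lit 0x8a898a09081a) (nat_lit 0) (p (nat_lit 0xa090988879a) (nat_lit 0) (p (nat_lit 0x87888908071a) (nat_lit 0) (p (nat_lit 0x7080887869a) (nat_lit 0) (p (nat_lit 0x80000800088807060a) (nat_lit 0) (p (nat_lit 0x80000800060786858a) (nat_lit 0) (p (nat_lit 0x8687060502) (nat_lit 0) (p (nat_lit 0x606858482) (nat_lit 0) (p (nat_lit 0x160014) (nat_lit 0) (p (nat_lit 0x68612) (nat_lit 0) (p (nat_lit 0x50592) (nat_lit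 0) (p (nat_lit 0x38512) (nat_lit 0) (p (nat_lit 0x50392) (nat_lit 0) (p (nat_lit 0x38312) (nat_lit 0) (p (nat_lit 0x20292) (nat_lit 0) (p (nat_lit 0x38112) (nat_lit 0) (p (nat_lit 0x20092) (nat_lit 0) (p (nat_lit 0x8012) (nat_lit 0) pn)))))))))))))))))))))))) :=
  Cl.node (nat_lit 0xd1) (nat_lit 2) (by decide +kernel) (ClAll.succ (ClAll.succ ClAll.zero s60) n37)

def n56 : Cl (O (nat_lit 3)) (R (nat_lit 143521))
    (p (nat_lit 0xc1) (nat_lit 0) (p (nat_lit 0x101) (nat_lit 1) (p (nat_lit 0x119) (nat_lit 0) (p (nat_lit 0xc9) (nat_lit 0) (p (nat_lit 0x89) (nat_lit 1) (p (nat_lit 0x41) (nat_lit 0) (p (nat_lit 0x8a898a09081a) (nat_lit 0) (p (nat_lit 0xa090988879a) (nat_lit 0) (p (nat_lit 0x87888908071a) (nat_lit 0) (p (nat_lit 0x7080887869a) (nat_lit 0) (p (nat_lit 0x80000800088807060a) (nat_lit 0) (p (nat_lit 0x80000800060786858a) (nat_lit 0) (p (nat_lit 0x8687060502) (nat_lit 0) (p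 (nat_lit 0x606858482) (nat_lit 0) (p (nat_lit 0x160014) (nat_lit 0) (p (nat_lit 0x68612) (nat_lit 0) (p (nat_lit 0x50592) (nat_lit 0) (p (nat_lit 0x38512) (nat_lit 0) (p (nat_lit 0x50392) (nat_lit 0) (p (nat_lit 0x38312) (nat_lit 0) (p (nat_lit 0x20292) (nat_lit 0) (p (nat_lit 0x38112) (nat_lit 0) (p (nat_lit 0x20092) (nat_lit 0) (p (nat_lit 0x8012) (nat_lit 0) pn)))))))))))))))))))))))) :=
  Cl.node (nat_lit 0xd1) (nat_lit 2) (by decide +kernel) (ClAll.succ (ClAll.succ ClAll.zero s63) s64)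

def n57 : Cl (O (nat_lit 3)) (R (nat_lit 143521))
    (p (nat_lit 0xd1) (nat_lit 1) (p (nat_lit 0xc1) (nat_lit 0) (p (nat_lit 0x119) (nat_lit 1) (p (nat_lit 0xc9) (nat_lit 0) (p (nat_lit 0x89) (nat_lit 1) (p (nat_lit 0x41) (nat_lit 0) (p (nat_lit 0x8a898a09081a) (nat_lit 0) (p (nat_lit 0xa090988879a) (nat_lit 0) (p (nat_lit 0x87888908071a) (nat_lit 0) (p (nat_lit 0x7080887869a) (nat_lit 0) (p (nat_lit 0x80000800088807060a) (nat_lit 0) (p (nat_lit 0x80000800060786858a) (nat_lit 0) (p (nat_lit 0x8687060502) (nat_lit 0) (p (nat_lit 0x606858482) (nat_lit 0) (p (nat_lit 0x160014) (nat_lit 0) (p (nat_lit 0x68612) (nat_lit 0) (p (nat_lit 0x50592) (nat_lit 0) (p (nat_lit 0x38512) (nat_lit 0) (p (nat_lit 0x50392) (nat_lit 0) (p (nat_lit 0x38312) (nat_lit 0) (p (nat_lit 0x20292) (nat_lit 0) (p (nat_lit 0x38112) (nat_lit 0) (p (nat_lit 0x20092) (nat_lit 0) (p (nat_lit 0x8012) (nat_lit 0) pn))))))))))))))))))))))))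 :=
  Cl.node (nat_lit 0x111) (nat_lit 2) (by decide +kernel) (ClAll.succ (ClAll.succ ClAll.zero s67) n38)

def n58 : Cl (O (nat_lit 3)) (R (nat_lit 143521))
    (p (nat_lit 0x101) (nat_lit 0) (p (nat_lit 0xc1) (nat_lit 1) (p (nat_lit 0x119) (nat_lit 1) (p (nat_lit 0xc9) (nat_lit 0) (p (nat_lit 0x89) (nat_lit 1) (p (nat_lit 0x41) (nat_lit 0) (p (nat_lit 0x8a898a09081a) (nat_lit 0) (p (nat_lit 0xa090988879a) (nat_lit 0) (p (nat_lit 0x87888908071a) (nat_lit 0) (p (nat_lit 0x7080887869a) (nat_lit 0) (p (nat_lit 0x80000800088807060a) (nat_lit 0) (p (nat_lit 0x80000800060786858a) (nat_lit 0) (p (nat_lit 0x8687060502) (nat_lit 0) (p (nat_lit 0x606858482) (nat_lit 0) (p (nat_lit 0x160014) (nat_lit 0) (p (nat_lit 0x68612) (nat_lit 0) (p (nat_lit 0x50592) (nat_lit 0) (p (nat_lit 0x38512) (nat_lit 0) (p (nat_lit 0x50392) (nat_lit 0) (p (nat_lit 0x38312) (nat_lit 0) (p (nat_lit 0x20292) (nat_lit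 0) (p (nat_lit 0x38112) (nat_lit 0) (p (nat_lit 0x20092) (nat_lit 0) (p (nat_lit 0x8012) (nat_lit 0) pn)))))))))))))))))))))))) :=
  Cl.node (nat_lit 0x111) (nat_lit 2) (by decide +kernel) (ClAll.succ (ClAll.succ ClAll.zero s70) n39)

def n59 : Cl (O (nat_lit 3)) (R (nat_lit 143521))
    (p (nat_lit 0x109) (nat_lit 1) (p (nat_lit 0x101) (nat_lit 0) (p (nat_lit 0x119) (nat_lit 0) (p (nat_lit 0xd1) (nat_lit 0) (p (nat_lit 0x81) (nat_lit 0) (p (nat_lit 0x41) (nat_lit 1) (p (nat_lit 0x8a898a09081a) (nat_lit 0) (p (nat_lit 0xa090988879a) (nat_lit 0) (p (nat_lit 0x87888908071a) (nat_lit 0) (p (nat_lit 0x7080887869a) (nat_lit 0) (p (nat_lit 0x80000800088807060a) (nat_lit 0) (p (nat_lit 0x80000800060786858a) (nat_lit 0) (p (nat_lit 0x8687060502) (nat_lit 0) (p (nat_lit 0x606858482) (nat_lit 0) (p (nat_lit 0x160014) (nat_lit 0) (p (nat_lit 0x68612) (nat_lit 0) (p (nat_lit 0x50592) (nat_lit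 0) (p (nat_lit 0x38512) (nat_lit 0) (p (nat_lit 0x50392) (nat_lit 0) (p (nat_lit 0x38312) (nat_lit 0) (p (nat_lit 0x20292) (nat_lit 0) (p (nat_lit 0x38112) (nat_lit 0) (p (nat_lit 0x20092) (nat_lit 0) (p (nat_lit 0x8012) (nat_lit 0) pn)))))))))))))))))))))))) :=
  Cl.node (nat_lit 0x89) (nat_lit 2) (by decide +kernel) (ClAll.succ (ClAll.succ ClAll.zero n40) n41)

def n60 : Cl (O (nat_lit 3)) (R (nat_lit 143521))
    (p (nat_lit 0xc1) (nat_lit 0) (p (nat_lit 0x101) (nat_lit 1) (p (nat_lit 0x119) (nat_lit 0) (p (nat_lit 0xd1) (nat_lit 0) (p (nat_lit 0x81) (nat_lit 0) (p (nat_lit 0x41) (nat_lit 1) (p (nat_lit 0x8a898a09081a) (nat_lit 0) (p (nat_lit 0xa090988879a) (nat_lit 0) (p (nat_lit 0x87888908071a) (nat_lit 0) (p (nat_lit 0x7080887869a) (nat_lit 0) (p (nat_lit 0x80000800088807060a) (nat_lit 0) (p (nat_lit 0x80000800060786858a) (nat_lit 0) (p (nat_lit 0x8687060502) (nat_lit 0) (p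 (nat_lit 0x606858482) (nat_lit 0) (p (nat_lit 0x160014) (nat_lit 0) (p (nat_lit 0x68612) (nat_lit 0) (p (nat_lit 0x50592) (nat_lit 0) (p (nat_lit 0x38512) (nat_lit 0) (p (nat_lit 0x50392) (nat_lit 0) (p (nat_lit 0x38312) (nat_lit 0) (p (nat_lit 0x20292) (nat_lit 0) (p (nat_lit 0x38112) (nat_lit 0) (p (nat_lit 0x20092) (nat_lit 0) (p (nat_lit 0x8012) (nat_lit 0) pn)))))))))))))))))))))))) :=
  Cl.node (nat_lit 0x89) (nat_lit 2) (by decide +kernel) (ClAll.succ (ClAll.succ ClAll.zero s83) n42)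

def n61 : Cl (O (nat_lit 3)) (R (nat_lit 143521))
    (p (nat_lit 0xc1) (nat_lit 1) (p (nat_lit 0x101) (nat_lit 1) (p (nat_lit 0x119) (nat_lit 0) (p (nat_lit 0xd1) (nat_lit 0) (p (nat_lit 0x81) (nat_lit 0) (p (nat_lit 0x41) (nat_lit 1) (p (nat_lit 0x8a898a09081a) (nat_lit 0) (p (nat_lit 0xa090988879a) (nat_lit 0) (p (nat_lit 0x87888908071a) (nat_lit 0) (p (nat_lit 0x7080887869a) (nat_lit 0) (p (nat_lit 0x80000800088807060a) (nat_lit 0) (p (nat_lit 0x80000800060786858a) (nat_lit 0) (p (nat_lit 0x8687060502) (nat_lit 0) (p (nat_lit 0x606858482) (nat_lit 0) (p (nat_lit 0x160014) (nat_lit 0) (p (nat_lit 0x68612) (nat_lit 0) (p (nat_lit 0x50592) (nat_lit 0) (p (nat_lit 0x38512) (nat_lit 0) (p (nat_lit 0x50392) (nat_lit 0) (p (nat_lit 0x38312) (nat_lit 0) (p (nat_lit 0x20292) (nat_lit 0) (p (nat_lit 0x38112) (nat_lit 0) (p (nat_lit 0x20092) (nat_lit 0) (p (nat_lit 0x8012) (nat_lit 0)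 pn)))))))))))))))))))))))) :=
  Cl.node (nat_lit 0x89) (nat_lit 2) (by decide +kernel) (ClAll.succ (ClAll.succ ClAll.zero s86) s87)

def n62 : Cl (O (nat_lit 3)) (R (nat_lit 143521))
    (p (nat_lit 0x109) (nat_lit 1) (p (nat_lit 0x101) (nat_lit 0) (p (nat_lit 0x111) (nat_lit 0) (p (nat_lit 0xd1) (nat_lit 1) (p (nat_lit 0x81) (nat_lit 0) (p (nat_lit 0x41) (nat_lit 1) (p (nat_lit 0x8a898a09081a) (nat_lit 0) (p (nat_lit 0xa090988879a) (nat_lit 0) (p (nat_lit 0x87888908071a) (nat_lit 0) (p (nat_lit 0x7080887869a) (nat_lit 0) (p (nat_lit 0x80000800088807060a) (nat_lit 0) (p (nat_lit 0x80000800060786858a) (nat_lit 0) (p (nat_lit 0x8687060502) (nat_lit 0) (p (nat_lit 0x606858482) (nat_lit 0) (p (nat_lit 0x160014) (nat_lit 0) (p (nat_lit 0x68612) (nat_lit 0) (p (nat_lit 0x50592) (nat_lit 0) (p (nat_lit 0x38512) (nat_lit 0) (p (nat_lit 0x50392) (nat_lit 0) (p (nat_lit 0x38312) (nat_lit 0)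 (p (nat_lit 0x20292) (nat_lit 0) (p (nat_lit 0x38112) (nat_lit 0) (p (nat_lit 0x20092) (nat_lit 0) (p (nat_lit 0x8012) (nat_lit 0) pn)))))))))))))))))))))))) :=
  Cl.node (nat_lit 0x89) (nat_lit 2) (by decide +kernel) (ClAll.succ (ClAll.succ ClAll.zero s92) n43)

def n63 : Cl (O (nat_lit 3)) (R (nat_lit 143521))
    (p (nat_lit 0x89) (nat_lit 0) (p (nat_lit 0x101) (nat_lit 1) (p (nat_lit 0x111) (nat_lit 0) (p (nat_lit 0xd1) (nat_lit 1) (p (nat_lit 0x81) (nat_lit 0) (p (nat_lit 0x41) (nat_lit 1) (p (nat_lit 0x8a898a09081a) (nat_lit 0) (p (nat_lit 0xa090988879a) (nat_lit 0) (p (nat_lit 0x87888908071a) (nat_lit 0) (p (nat_lit 0x7080887869a) (nat_lit 0) (p (nat_lit 0x80000800088807060a) (nat_lit 0) (p (nat_lit 0x80000800060786858a) (nat_lit 0) (p (nat_lit 0x8687060502) (nat_lit 0) (p (nat_lit 0x606858482) (nat_lit 0) (p (nat_lit 0x160014) (nat_lit 0) (p (nat_lit 0x68612) (nat_lit 0)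 (p (nat_lit 0x50592) (nat_lit 0) (p (nat_lit 0x38512) (nat_lit 0) (p (nat_lit 0x50392) (nat_lit 0) (p (nat_lit 0x38312) (nat_lit 0) (p (nat_lit 0x20292) (nat_lit 0) (p (nat_lit 0x38112) (nat_lit 0) (p (nat_lit 0x20092) (nat_lit 0) (p (nat_lit 0x8012) (nat_lit 0) pn)))))))))))))))))))))))) :=
  Cl.node (nat_lit 0x200004) (nat_lit 2) (by decide +kernel) (ClAll.succ (ClAll.succ ClAll.zero s97) s98)

def n64 : Cl (O (nat_lit 3)) (R (nat_lit 143521))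
    (p (nat_lit 0x89) (nat_lit 1) (p (nat_lit 0x101) (nat_lit 1) (p (nat_lit 0x111) (nat_lit 0) (p (nat_lit 0xd1) (nat_lit 1) (p (nat_lit 0x81) (nat_lit 0) (p (nat_lit 0x41) (nat_lit 1) (p (nat_lit 0x8a898a09081a) (nat_lit 0) (p (nat_lit 0xa090988879a) (nat_lit 0) (p (nat_lit 0x87888908071a) (nat_lit 0) (p (nat_lit 0x7080887869a) (nat_lit 0) (p (nat_lit 0x80000800088807060a) (nat_lit 0) (p (nat_lit 0x80000800060786858a) (nat_lit 0) (p (nat_lit 0x8687060502) (nat_lit 0) (p (nat_lit 0x606858482) (nat_lit 0) (p (nat_lit 0x160014) (nat_lit 0) (p (nat_lit 0x68612) (nat_lit 0) (p (nat_lit 0x50592) (nat_lit 0) (p (nat_lit 0x38512) (nat_lit 0) (p (nat_lit 0x50392) (nat_lit 0) (p (nat_lit 0x38312) (nat_lit 0) (p (nat_lit 0x20292) (nat_lit 0) (p (nat_lit 0x38112) (nat_lit 0) (p (nat_lit 0x20092) (nat_lit 0) (p (nat_lit 0x8012) (nat_lit 0) pn)))))))))))))))))))))))) :=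
  Cl.node (nat_lit 0xc9) (nat_lit 2) (by decide +kernel) (ClAll.succ (ClAll.succ ClAll.zero n44) s102)

def n65 : Cl (O (nat_lit 3)) (R (nat_lit 143521))
    (p (nat_lit 0xc9) (nat_lit 1) (p (nat_lit 0x89) (nat_lit 1) (p (nat_lit 0x111) (nat_lit 1) (p (nat_lit 0xd1) (nat_lit 1) (p (nat_lit 0x81) (nat_lit 0) (p (nat_lit 0x41) (nat_lit 1) (p (nat_lit 0x8a898a09081a) (nat_lit 0) (p (nat_lit 0xa090988879a) (nat_lit 0) (p (nat_lit 0x87888908071a) (nat_lit 0) (p (nat_lit 0x7080887869a) (nat_lit 0) (p (nat_lit 0x80000800088807060a) (nat_lit 0) (p (nat_lit 0x80000800060786858a) (nat_lit 0) (p (nat_lit 0x8687060502) (nat_lit 0) (p (nat_lit 0x606858482) (nat_lit 0) (p (nat_lit 0x160014) (nat_lit 0) (p (nat_lit 0x68612) (nat_lit 0) (p (nat_lit 0x50592) (nat_lit 0) (p (nat_lit 0x38512) (nat_lit 0) (p (nat_lit 0x50392) (nat_lit 0) (p (nat_lit 0x38312) (nat_lit 0) (p (nat_lit 0x20292) (nat_lit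 0) (p (nat_lit 0x38112) (nat_lit 0) (p (nat_lit 0x20092) (nat_lit 0) (p (nat_lit 0x8012) (nat_lit 0) pn)))))))))))))))))))))))) :=
  Cl.node (nat_lit 0x109) (nat_lit 2) (by decide +kernel) (ClAll.succ (ClAll.succ ClAll.zero s105) s106)

def n66 : Cl (O (nat_lit 3)) (R (nat_lit 143521))
    (p (nat_lit 0x101) (nat_lit 0) (p (nat_lit 0x119) (nat_lit 0) (p (nat_lit 0xd1) (nat_lit 0) (p (nat_lit 0x89) (nat_lit 0) (p (nat_lit 0x41) (nat_lit 0) (p (nat_lit 0x8a898a09081a) (nat_lit 0) (p (nat_lit 0xa090988879a) (nat_lit 0) (p (nat_lit 0x87888908071a) (nat_lit 0) (p (nat_lit 0x7080887869a) (nat_lit 0) (p (nat_lit 0x80000800088807060a) (nat_lit 0) (p (nat_lit 0x80000800060786858a) (nat_lit 0) (p (nat_lit 0x8687060502) (nat_lit 0) (p (nat_lit 0x606858482) (nat_lit 0) (p (nat_lit 0x160014) (nat_lit 0) (p (nat_lit 0x68612) (nat_lit 0) (p (nat_lit 0x50592) (nat_lit 0) (p (nat_lit 0x38512) (nat_lit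 0) (p (nat_lit 0x50392) (nat_lit 0) (p (nat_lit 0x38312) (nat_lit 0) (p (nat_lit 0x20292) (nat_lit 0) (p (nat_lit 0x38112) (nat_lit 0) (p (nat_lit 0x20092) (nat_lit 0) (p (nat_lit 0x8012) (nat_lit 0) pn))))))))))))))))))))))) :=
  Cl.node (nat_lit 0x109) (nat_lit 2) (by decide +kernel) (ClAll.succ (ClAll.succ ClAll.zero s0) n45)

def n67 : Cl (O (nat_lit 3)) (R (nat_lit 143521))
    (p (nat_lit 0x101) (nat_lit 1) (p (nat_lit 0x119) (nat_lit 0) (p (nat_lit 0xd1) (nat_lit 0) (p (nat_lit 0x89) (nat_lit 0) (p (nat_lit 0x41) (nat_lit 0) (p (nat_lit 0x8a898a09081a) (nat_lit 0) (p (nat_lit 0xa090988879a) (nat_lit 0) (p (nat_lit 0x87888908071a) (nat_lit 0) (p (nat_lit 0x7080887869a) (nat_lit 0) (p (nat_lit 0x80000800088807060a) (nat_lit 0) (p (nat_lit 0x80000800060786858a) (nat_lit 0) (p (nat_lit 0x8687060502) (nat_lit 0) (p (nat_lit 0x606858482) (nat_lit 0) (p (nat_lit 0x160014) (nat_lit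 0) (p (nat_lit 0x68612) (nat_lit 0) (p (nat_lit 0x50592) (nat_lit 0) (p (nat_lit 0x38512) (nat_lit 0) (p (nat_lit 0x50392) (nat_lit 0) (p (nat_lit 0x38312) (nat_lit 0) (p (nat_lit 0x20292) (nat_lit 0) (p (nat_lit 0x38112) (nat_lit 0) (p (nat_lit 0x20092) (nat_lit 0) (p (nat_lit 0x8012) (nat_lit 0) pn))))))))))))))))))))))) :=
  Cl.node (nat_lit 0x81) (nat_lit 2) (by decide +kernel) (ClAll.succ (ClAll.succ ClAll.zero n46) n47)

def n68 : Cl (O (nat_lit 3)) (R (nat_lit 143521))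
    (p (nat_lit 0xc1) (nat_lit 0) (p (nat_lit 0x119) (nat_lit 1) (p (nat_lit 0xd1) (nat_lit 0) (p (nat_lit 0x89) (nat_lit 0) (p (nat_lit 0x41) (nat_lit 0) (p (nat_lit 0x8a898a09081a) (nat_lit 0) (p (nat_lit 0xa090988879a) (nat_lit 0) (p (nat_lit 0x87888908071a) (nat_lit 0) (p (nat_lit 0x7080887869a) (nat_lit 0) (p (nat_lit 0x80000800088807060a) (nat_lit 0) (p (nat_lit 0x80000800060786858a) (nat_lit 0) (p (nat_lit 0x8687060502) (nat_lit 0) (p (nat_lit 0x606858482) (nat_lit 0) (p (nat_lit 0x160014) (nat_lit 0) (p (nat_lit 0x68612) (nat_lit 0) (p (nat_lit 0x50592) (nat_lit 0) (p (nat_lit 0x38512) (nat_lit 0) (p (nat_lit 0x50392) (nat_lit 0) (p (nat_lit 0x38312) (nat_lit 0) (p (nat_lit 0x20292) (nat_lit 0) (p (nat_lit 0x38112) (nat_lit 0) (p (nat_lit 0x20092) (nat_lit 0) (p (nat_lit 0x8012) (nat_lit 0) pn))))))))))))))))))))))) :=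
  Cl.node (nat_lit 0xc9) (nat_lit 2) (by decide +kernel) (ClAll.succ (ClAll.succ ClAll.zero s20) n48)

def n69 : Cl (O (nat_lit 3)) (R (nat_lit 143521))
    (p (nat_lit 0xc1) (nat_lit 1) (p (nat_lit 0x119) (nat_lit 1) (p (nat_lit 0xd1) (nat_lit 0) (p (nat_lit 0x89) (nat_lit 0) (p (nat_lit 0x41) (nat_lit 0) (p (nat_lit 0x8a898a09081a) (nat_lit 0) (p (nat_lit 0xa090988879a) (nat_lit 0) (p (nat_lit 0x87888908071a) (nat_lit 0) (p (nat_lit 0x7080887869a) (nat_lit 0) (p (nat_lit 0x80000800088807060a) (nat_lit 0) (p (nat_lit 0x80000800060786858a) (nat_lit 0) (p (nat_lit 0x8687060502) (nat_lit 0) (p (nat_lit 0x606858482) (nat_lit 0) (p (nat_lit 0x160014) (nat_lit 0) (p (nat_lit 0x68612) (nat_lit 0) (p (nat_lit 0x50592) (nat_lit 0) (p (nat_lit 0x38512) (nat_lit 0) (p (nat_lit 0x50392) (nat_lit 0) (p (nat_lit 0x38312) (nat_lit 0) (p (nat_lit 0x20292) (nat_lit 0) (p (nat_lit 0x38112) (nat_lit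 0) (p (nat_lit 0x20092) (nat_lit 0) (p (nat_lit 0x8012) (nat_lit 0) pn))))))))))))))))))))))) :=
  Cl.node (nat_lit 0x81) (nat_lit 2) (by decide +kernel) (ClAll.succ (ClAll.succ ClAll.zero s23) n49)

def n70 : Cl (O (nat_lit 3)) (R (nat_lit 143521))
    (p (nat_lit 0x101) (nat_lit 0) (p (nat_lit 0x111) (nat_lit 0) (p (nat_lit 0xd1) (nat_lit 1) (p (nat_lit 0x89) (nat_lit 0) (p (nat_lit 0x41) (nat_lit 0) (p (nat_lit 0x8a898a09081a) (nat_lit 0) (p (nat_lit 0xa090988879a) (nat_lit 0) (p (nat_lit 0x87888908071a) (nat_lit 0) (p (nat_lit 0x7080887869a) (nat_lit 0) (p (nat_lit 0x80000800088807060a) (nat_lit 0) (p (nat_lit 0x80000800060786858a) (nat_lit 0) (p (nat_lit 0x8687060502) (nat_lit 0) (p (nat_lit 0x606858482) (nat_lit 0) (p (nat_lit 0x160014) (nat_lit 0) (p (nat_lit 0x68612) (nat_lit 0) (p (nat_lit 0x50592) (nat_lit 0) (p (nat_lit 0x38512) (nat_lit 0) (p (nat_lit 0x50392) (nat_lit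 0) (p (nat_lit 0x38312) (nat_lit 0) (p (nat_lit 0x20292) (nat_lit 0) (p (nat_lit 0x38112) (nat_lit 0) (p (nat_lit 0x20092) (nat_lit 0) (p (nat_lit 0x8012) (nat_lit 0) pn))))))))))))))))))))))) :=
  Cl.node (nat_lit 0x109) (nat_lit 2) (by decide +kernel) (ClAll.succ (ClAll.succ ClAll.zero s27) n50)

def n71 : Cl (O (nat_lit 3)) (R (nat_lit 143521))
    (p (nat_lit 0x101) (nat_lit 1) (p (nat_lit 0x111) (nat_lit 0) (p (nat_lit 0xd1) (nat_lit 1) (p (nat_lit 0x89) (nat_lit 0) (p (nat_lit 0x41) (nat_lit 0) (p (nat_lit 0x8a898a09081a) (nat_lit 0) (p (nat_lit 0xa090988879a) (nat_lit 0) (p (nat_lit 0x87888908071a) (nat_lit 0) (p (nat_lit 0x7080887869a) (nat_lit 0) (p (nat_lit 0x80000800088807060a) (nat_lit 0) (p (nat_lit 0x80000800060786858a) (nat_lit 0) (p (nat_lit 0x8687060502) (nat_lit 0) (p (nat_lit 0x606858482) (nat_lit 0) (p (nat_lit 0x160014) (nat_lit 0) (p (nat_lit 0x68612) (nat_lit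 0) (p (nat_lit 0x50592) (nat_lit 0) (p (nat_lit 0x38512) (nat_lit 0) (p (nat_lit 0x50392) (nat_lit 0) (p (nat_lit 0x38312) (nat_lit 0) (p (nat_lit 0x20292) (nat_lit 0) (p (nat_lit 0x38112) (nat_lit 0) (p (nat_lit 0x20092) (nat_lit 0) (p (nat_lit 0x8012) (nat_lit 0) pn))))))))))))))))))))))) :=
  Cl.node (nat_lit 0x81) (nat_lit 2) (by decide +kernel) (ClAll.succ (ClAll.succ ClAll.zero n51) n52)

def n72 : Cl (O (nat_lit 3)) (R (nat_lit 143521))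
    (p (nat_lit 0x81) (nat_lit 1) (p (nat_lit 0x111) (nat_lit 1) (p (nat_lit 0xd1) (nat_lit 1) (p (nat_lit 0x89) (nat_lit 0) (p (nat_lit 0x41) (nat_lit 0) (p (nat_lit 0x8a898a09081a) (nat_lit 0) (p (nat_lit 0xa090988879a) (nat_lit 0) (p (nat_lit 0x87888908071a) (nat_lit 0) (p (nat_lit 0x7080887869a) (nat_lit 0) (p (nat_lit 0x80000800088807060a) (nat_lit 0) (p (nat_lit 0x80000800060786858a) (nat_lit 0) (p (nat_lit 0x8687060502) (nat_lit 0) (p (nat_lit 0x606858482) (nat_lit 0) (p (nat_lit 0x160014) (nat_lit 0) (p (nat_lit 0x68612) (nat_lit 0) (p (nat_lit 0x50592) (nat_lit 0) (p (nat_lit 0x38512) (nat_lit 0) (p (nat_lit 0x50392) (nat_lit 0) (p (nat_lit 0x38312) (nat_lit 0) (p (nat_lit 0x20292) (nat_lit 0) (p (nat_lit 0x38112) (nat_lit 0) (p (nat_lit 0x20092) (nat_lit 0) (p (nat_lit 0x8012) (nat_lit 0) pn))))))))))))))))))))))) :=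
  Cl.node (nat_lit 0xc1) (nat_lit 2) (by decide +kernel) (ClAll.succ (ClAll.succ ClAll.zero s50) n53)

def n73 : Cl (O (nat_lit 3)) (R (nat_lit 143521))
    (p (nat_lit 0x101) (nat_lit 0) (p (nat_lit 0x119) (nat_lit 0) (p (nat_lit 0xc9) (nat_lit 0) (p (nat_lit 0x89) (nat_lit 1) (p (nat_lit 0x41) (nat_lit 0) (p (nat_lit 0x8a898a09081a) (nat_lit 0) (p (nat_lit 0xa090988879a) (nat_lit 0) (p (nat_lit 0x87888908071a) (nat_lit 0) (p (nat_lit 0x7080887869a) (nat_lit 0) (p (nat_lit 0x80000800088807060a) (nat_lit 0) (p (nat_lit 0x80000800060786858a) (nat_lit 0) (p (nat_lit 0x8687060502) (nat_lit 0) (p (nat_lit 0x606858482) (nat_lit 0) (p (nat_lit 0x160014) (nat_lit 0) (p (nat_lit 0x68612) (nat_lit 0) (p (nat_lit 0x50592) (nat_lit 0) (p (nat_lit 0x38512) (nat_lit 0) (p (nat_lit 0x50392) (nat_lit 0) (p (nat_lit 0x38312) (nat_lit 0) (p (nat_lit 0x20292) (nat_lit 0) (p (nat_lit 0x38112) (nat_lit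 0) (p (nat_lit 0x20092) (nat_lit 0) (p (nat_lit 0x8012) (nat_lit 0) pn))))))))))))))))))))))) :=
  Cl.node (nat_lit 0x109) (nat_lit 2) (by decide +kernel) (ClAll.succ (ClAll.succ ClAll.zero n54) n55)

def n74 : Cl (O (nat_lit 3)) (R (nat_lit 143521))
    (p (nat_lit 0x101) (nat_lit 1) (p (nat_lit 0x119) (nat_lit 0) (p (nat_lit 0xc9) (nat_lit 0) (p (nat_lit 0x89) (nat_lit 1) (p (nat_lit 0x41) (nat_lit 0) (p (nat_lit 0x8a898a09081a) (nat_lit 0) (p (nat_lit 0xa090988879a) (nat_lit 0) (p (nat_lit 0x87888908071a) (nat_lit 0) (p (nat_lit 0x7080887869a) (nat_lit 0) (p (nat_lit 0x80000800088807060a) (nat_lit 0) (p (nat_lit 0x80000800060786858a) (nat_lit 0) (p (nat_lit 0x8687060502) (nat_lit 0) (p (nat_lit 0x606858482) (nat_lit 0) (p (nat_lit 0x160014) (nat_lit 0) (p (nat_lit 0x68612) (nat_lit 0) (p (nat_lit 0x50592) (nat_lit 0) (p (nat_lit 0x38512) (nat_lit 0) (p (nat_lit 0x50392) (nat_lit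 0) (p (nat_lit 0x38312) (nat_lit 0) (p (nat_lit 0x20292) (nat_lit 0) (p (nat_lit 0x38112) (nat_lit 0) (p (nat_lit 0x20092) (nat_lit 0) (p (nat_lit 0x8012) (nat_lit 0) pn))))))))))))))))))))))) :=
  Cl.node (nat_lit 0xc1) (nat_lit 2) (by decide +kernel) (ClAll.succ (ClAll.succ ClAll.zero n56) s65)

def n75 : Cl (O (nat_lit 3)) (R (nat_lit 143521))
    (p (nat_lit 0xc1) (nat_lit 0) (p (nat_lit 0x119) (nat_lit 1) (p (nat_lit 0xc9) (nat_lit 0) (p (nat_lit 0x89) (nat_lit 1) (p (nat_lit 0x41) (nat_lit 0) (p (nat_lit 0x8a898a09081a) (nat_lit 0) (p (nat_lit 0xa090988879a) (nat_lit 0) (p (nat_lit 0x87888908071a) (nat_lit 0) (p (nat_lit 0x7080887869a) (nat_lit 0) (p (nat_lit 0x80000800088807060a) (nat_lit 0) (p (nat_lit 0x80000800060786858a) (nat_lit 0) (p (nat_lit 0x8687060502) (nat_lit 0) (p (nat_lit 0x606858482) (nat_lit 0) (p (nat_lit 0x160014) (nat_lit 0) (p (nat_lit 0x68612) (nat_lit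 0) (p (nat_lit 0x50592) (nat_lit 0) (p (nat_lit 0x38512) (nat_lit 0) (p (nat_lit 0x50392) (nat_lit 0) (p (nat_lit 0x38312) (nat_lit 0) (p (nat_lit 0x20292) (nat_lit 0) (p (nat_lit 0x38112) (nat_lit 0) (p (nat_lit 0x20092) (nat_lit 0) (p (nat_lit 0x8012) (nat_lit 0) pn))))))))))))))))))))))) :=
  Cl.node (nat_lit 0xd1) (nat_lit 2) (by decide +kernel) (ClAll.succ (ClAll.succ ClAll.zero s66) n57)

def n76 : Cl (O (nat_lit 3)) (R (nat_lit 143521))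
    (p (nat_lit 0xc1) (nat_lit 1) (p (nat_lit 0x119) (nat_lit 1) (p (nat_lit 0xc9) (nat_lit 0) (p (nat_lit 0x89) (nat_lit 1) (p (nat_lit 0x41) (nat_lit 0) (p (nat_lit 0x8a898a09081a) (nat_lit 0) (p (nat_lit 0xa090988879a) (nat_lit 0) (p (nat_lit 0x87888908071a) (nat_lit 0) (p (nat_lit 0x7080887869a) (nat_lit 0) (p (nat_lit 0x80000800088807060a) (nat_lit 0) (p (nat_lit 0x80000800060786858a) (nat_lit 0) (p (nat_lit 0x8687060502) (nat_lit 0) (p (nat_lit 0x606858482) (nat_lit 0) (p (nat_lit 0x160014) (nat_lit 0) (p (nat_lit 0x68612) (nat_lit 0) (p (nat_lit 0x50592) (nat_lit 0) (p (nat_lit 0x38512) (nat_lit 0) (p (nat_lit 0x50392) (nat_lit 0) (p (nat_lit 0x38312) (nat_lit 0) (p (nat_lit 0x20292) (nat_lit 0) (p (nat_lit 0x38112) (nat_lit 0) (p (nat_lit 0x20092) (nat_lit 0) (p (nat_lit 0x8012) (nat_lit 0) pn))))))))))))))))))))))) :=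
  Cl.node (nat_lit 0x101) (nat_lit 2) (by decide +kernel) (ClAll.succ (ClAll.succ ClAll.zero n58) s73)

def n77 : Cl (O (nat_lit 3)) (R (nat_lit 143521))
    (p (nat_lit 0x101) (nat_lit 0) (p (nat_lit 0x109) (nat_lit 0) (p (nat_lit 0xc9) (nat_lit 1) (p (nat_lit 0x89) (nat_lit 1) (p (nat_lit 0x41) (nat_lit 0) (p (nat_lit 0x8a898a09081a) (nat_lit 0) (p (nat_lit 0xa090988879a) (nat_lit 0) (p (nat_lit 0x87888908071a) (nat_lit 0) (p (nat_lit 0x7080887869a) (nat_lit 0) (p (nat_lit 0x80000800088807060a) (nat_lit 0) (p (nat_lit 0x80000800060786858a) (nat_lit 0) (p (nat_lit 0x8687060502) (nat_lit 0) (p (nat_lit 0x606858482) (nat_lit 0) (p (nat_lit 0x160014) (nat_lit 0) (p (nat_lit 0x68612) (nat_lit 0) (p (nat_lit 0x50592) (nat_lit 0) (p (nat_lit 0x38512) (nat_lit 0) (p (nat_lit 0x50392) (nat_lit 0) (p (nat_lit 0x38312) (nat_lit 0) (p (nat_lit 0x20292) (nat_lit 0) (p (nat_lit 0x38112) (nat_lit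 0) (p (nat_lit 0x20092) (nat_lit 0) (p (nat_lit 0x8012) (nat_lit 0) pn))))))))))))))))))))))) :=
  Cl.node (nat_lit 0x111) (nat_lit 2) (by decide +kernel) (ClAll.succ (ClAll.succ ClAll.zero s74) s75)

def n78 : Cl (O (nat_lit 3)) (R (nat_lit 143521))
    (p (nat_lit 0x101) (nat_lit 0) (p (nat_lit 0x119) (nat_lit 0) (p (nat_lit 0xd1) (nat_lit 0) (p (nat_lit 0x81) (nat_lit 0) (p (nat_lit 0x41) (nat_lit 1) (p (nat_lit 0x8a898a09081a) (nat_lit 0) (p (nat_lit 0xa090988879a) (nat_lit 0) (p (nat_lit 0x87888908071a) (nat_lit 0) (p (nat_lit 0x7080887869a) (nat_lit 0) (p (nat_lit 0x80000800088807060a) (nat_lit 0) (p (nat_lit 0x80000800060786858a) (nat_lit 0) (p (nat_lit 0x8687060502) (nat_lit 0) (p (nat_lit 0x606858482) (nat_lit 0) (p (nat_lit 0x160014) (nat_lit 0) (p (nat_lit 0x68612) (nat_lit 0) (p (nat_lit 0x50592) (nat_lit 0) (p (nat_lit 0x38512) (nat_lit 0) (p (nat_lit 0x50392) (nat_lit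 0) (p (nat_lit 0x38312) (nat_lit 0) (p (nat_lit 0x20292) (nat_lit 0) (p (nat_lit 0x38112) (nat_lit 0) (p (nat_lit 0x20092) (nat_lit 0) (p (nat_lit 0x8012) (nat_lit 0) pn))))))))))))))))))))))) :=
  Cl.node (nat_lit 0x109) (nat_lit 2) (by decide +kernel) (ClAll.succ (ClAll.succ ClAll.zero s78) n59)

def n79 : Cl (O (nat_lit 3)) (R (nat_lit 143521))
    (p (nat_lit 0x101) (nat_lit 1) (p (nat_lit 0x119) (nat_lit 0) (p (nat_lit 0xd1) (nat_lit 0) (p (nat_lit 0x81) (nat_lit 0) (p (nat_lit 0x41) (nat_lit 1) (p (nat_lit 0x8a898a09081a) (nat_lit 0) (p (nat_lit 0xa090988879a) (nat_lit 0) (p (nat_lit 0x87888908071a) (nat_lit 0) (p (nat_lit 0x7080887869a) (nat_lit 0) (p (nat_lit 0x80000800088807060a) (nat_lit 0) (p (nat_lit 0x80000800060786858a) (nat_lit 0) (p (nat_lit 0x8687060502) (nat_lit 0) (p (nat_lit 0x606858482) (nat_lit 0) (p (nat_lit 0x160014) (nat_lit 0) (p (nat_lit 0x68612) (nat_lit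 0) (p (nat_lit 0x50592) (nat_lit 0) (p (nat_lit 0x38512) (nat_lit 0) (p (nat_lit 0x50392) (nat_lit 0) (p (nat_lit 0x38312) (nat_lit 0) (p (nat_lit 0x20292) (nat_lit 0) (p (nat_lit 0x38112) (nat_lit 0) (p (nat_lit 0x20092) (nat_lit 0) (p (nat_lit 0x8012) (nat_lit 0) pn))))))))))))))))))))))) :=
  Cl.node (nat_lit 0xc1) (nat_lit 2) (by decide +kernel) (ClAll.succ (ClAll.succ ClAll.zero n60) n61)

def n80 : Cl (O (nat_lit 3)) (R (nat_lit 143521))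
    (p (nat_lit 0xc1) (nat_lit 1) (p (nat_lit 0x119) (nat_lit 1) (p (nat_lit 0xd1) (nat_lit 0) (p (nat_lit 0x81) (nat_lit 0) (p (nat_lit 0x41) (nat_lit 1) (p (nat_lit 0x8a898a09081a) (nat_lit 0) (p (nat_lit 0xa090988879a) (nat_lit 0) (p (nat_lit 0x87888908071a) (nat_lit 0) (p (nat_lit 0x7080887869a) (nat_lit 0) (p (nat_lit 0x80000800088807060a) (nat_lit 0) (p (nat_lit 0x80000800060786858a) (nat_lit 0) (p (nat_lit 0x8687060502) (nat_lit 0) (p (nat_lit 0x606858482) (nat_lit 0) (p (nat_lit 0x160014) (nat_lit 0) (p (nat_lit 0x68612) (nat_lit 0) (p (nat_lit 0x50592) (nat_lit 0) (p (nat_lit 0x38512) (nat_lit 0) (p (nat_lit 0x50392) (nat_lit 0) (p (nat_lit 0x38312) (nat_lit 0) (p (nat_lit 0x20292) (nat_lit 0) (p (nat_lit 0x38112) (nat_lit 0) (p (nat_lit 0x20092) (nat_lit 0) (p (nat_lit 0x8012) (nat_lit 0) pn))))))))))))))))))))))) :=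
  Cl.node (nat_lit 0x101) (nat_lit 2) (by decide +kernel) (ClAll.succ (ClAll.succ ClAll.zero s89) s90)

def n81 : Cl (O (nat_lit 3)) (R (nat_lit 143521))
    (p (nat_lit 0x101) (nat_lit 0) (p (nat_lit 0x111) (nat_lit 0) (p (nat_lit 0xd1) (nat_lit 1) (p (nat_lit 0x81) (nat_lit 0) (p (nat_lit 0x41) (nat_lit 1) (p (nat_lit 0x8a898a09081a) (nat_lit 0) (p (nat_lit 0xa090988879a) (nat_lit 0) (p (nat_lit 0x87888908071a) (nat_lit 0) (p (nat_lit 0x7080887869a) (nat_lit 0) (p (nat_lit 0x80000800088807060a) (nat_lit 0) (p (nat_lit 0x80000800060786858a) (nat_lit 0) (p (nat_lit 0x8687060502) (nat_lit 0) (p (nat_lit 0x606858482) (nat_lit 0) (p (nat_lit 0x160014) (nat_lit 0) (p (nat_lit 0x68612) (nat_lit 0) (p (nat_lit 0x50592) (nat_lit 0) (p (nat_lit 0x38512) (nat_lit 0) (p (nat_lit 0x50392) (nat_lit 0) (p (nat_lit 0x38312) (nat_lit 0) (p (nat_lit 0x20292) (nat_lit 0) (p (nat_lit 0x38112) (nat_lit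 0) (p (nat_lit 0x20092) (nat_lit 0) (p (nat_lit 0x8012) (nat_lit 0) pn))))))))))))))))))))))) :=
  Cl.node (nat_lit 0x109) (nat_lit 2) (by decide +kernel) (ClAll.succ (ClAll.succ ClAll.zero s91) n62)

def n82 : Cl (O (nat_lit 3)) (R (nat_lit 143521))
    (p (nat_lit 0x101) (nat_lit 1) (p (nat_lit 0x111) (nat_lit 0) (p (nat_lit 0xd1) (nat_lit 1) (p (nat_lit 0x81) (nat_lit 0) (p (nat_lit 0x41) (nat_lit 1) (p (nat_lit 0x8a898a09081a) (nat_lit 0) (p (nat_lit 0xa090988879a) (nat_lit 0) (p (nat_lit 0x87888908071a) (nat_lit 0) (p (nat_lit 0x7080887869a) (nat_lit 0) (p (nat_lit 0x80000800088807060a) (nat_lit 0) (p (nat_lit 0x80000800060786858a) (nat_lit 0) (p (nat_lit 0x8687060502) (nat_lit 0) (p (nat_lit 0x606858482) (nat_lit 0) (p (nat_lit 0x160014) (nat_lit 0) (p (nat_lit 0x68612) (nat_lit 0) (p (nat_lit 0x50592) (nat_lit 0) (p (nat_lit 0x38512) (nat_lit 0) (p (nat_lit 0x50392) (nat_lit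 0) (p (nat_lit 0x38312) (nat_lit 0) (p (nat_lit 0x20292) (nat_lit 0) (p (nat_lit 0x38112) (nat_lit 0) (p (nat_lit 0x20092) (nat_lit 0) (p (nat_lit 0x8012) (nat_lit 0) pn))))))))))))))))))))))) :=
  Cl.node (nat_lit 0x89) (nat_lit 2) (by decide +kernel) (ClAll.succ (ClAll.succ ClAll.zero n63) n64)

def n83 : Cl (O (nat_lit 3)) (R (nat_lit 143521))
    (p (nat_lit 0x89) (nat_lit 1) (p (nat_lit 0x111) (nat_lit 1) (p (nat_lit 0xd1) (nat_lit 1) (p (nat_lit 0x81) (nat_lit 0) (p (nat_lit 0x41) (nat_lit 1) (p (nat_lit 0x8a898a09081a) (nat_lit 0) (p (nat_lit 0xa090988879a) (nat_lit 0) (p (nat_lit 0x87888908071a) (nat_lit 0) (p (nat_lit 0x7080887869a) (nat_lit 0) (p (nat_lit 0x80000800088807060a) (nat_lit 0) (p (nat_lit 0x80000800060786858a) (nat_lit 0) (p (nat_lit 0x8687060502) (nat_lit 0) (p (nat_lit 0x606858482) (nat_lit 0) (p (nat_lit 0x160014) (nat_lit 0) (p (nat_lit 0x68612) (nat_lit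 0) (p (nat_lit 0x50592) (nat_lit 0) (p (nat_lit 0x38512) (nat_lit 0) (p (nat_lit 0x50392) (nat_lit 0) (p (nat_lit 0x38312) (nat_lit 0) (p (nat_lit 0x20292) (nat_lit 0) (p (nat_lit 0x38112) (nat_lit 0) (p (nat_lit 0x20092) (nat_lit 0) (p (nat_lit 0x8012) (nat_lit 0) pn))))))))))))))))))))))) :=
  Cl.node (nat_lit 0xc9) (nat_lit 2) (by decide +kernel) (ClAll.succ (ClAll.succ ClAll.zero s104) n65)

def n84 : Cl (O (nat_lit 3)) (R (nat_lit 143521))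
    (p (nat_lit 0x101) (nat_lit 0) (p (nat_lit 0x119) (nat_lit 0) (p (nat_lit 0xc1) (nat_lit 0) (p (nat_lit 0x81) (nat_lit 1) (p (nat_lit 0x41) (nat_lit 1) (p (nat_lit 0x8a898a09081a) (nat_lit 0) (p (nat_lit 0xa090988879a) (nat_lit 0) (p (nat_lit 0x87888908071a) (nat_lit 0) (p (nat_lit 0x7080887869a) (nat_lit 0) (p (nat_lit 0x80000800088807060a) (nat_lit 0) (p (nat_lit 0x80000800060786858a) (nat_lit 0) (p (nat_lit 0x8687060502) (nat_lit 0) (p (nat_lit 0x606858482) (nat_lit 0) (p (nat_lit 0x160014) (nat_lit 0) (p (nat_lit 0x68612) (nat_lit 0) (p (nat_lit 0x50592) (nat_lit 0) (p (nat_lit 0x38512) (nat_lit 0) (p (nat_lit 0x50392) (nat_lit 0) (p (nat_lit 0x38312) (nat_lit 0) (p (nat_lit 0x20292) (nat_lit 0) (p (nat_lit 0x38112) (nat_lit 0) (p (nat_lit 0x20092) (nat_lit 0) (p (nat_lit 0x8012) (nat_lit 0) pn))))))))))))))))))))))) :=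
  Cl.node (nat_lit 0x109) (nat_lit 2) (by decide +kernel) (ClAll.succ (ClAll.succ ClAll.zero s107) s108)

def n85 : Cl (O (nat_lit 3)) (R (nat_lit 143521))
    (p (nat_lit 0x119) (nat_lit 0) (p (nat_lit 0xd1) (nat_lit 0) (p (nat_lit 0x89) (nat_lit 0) (p (nat_lit 0x41) (nat_lit 0) (p (nat_lit 0x8a898a09081a) (nat_lit 0) (p (nat_lit 0xa090988879a) (nat_lit 0) (p (nat_lit 0x87888908071a) (nat_lit 0) (p (nat_lit 0x7080887869a) (nat_lit 0) (p (nat_lit 0x80000800088807060a) (nat_lit 0) (p (nat_lit 0x80000800060786858a) (nat_lit 0) (p (nat_lit 0x8687060502) (nat_lit 0) (p (nat_lit 0x606858482) (nat_lit 0) (p (nat_lit 0x160014) (nat_lit 0) (p (nat_lit 0x68612) (nat_lit 0) (p (nat_lit 0x50592) (nat_lit 0) (p (nat_lit 0x38512) (nat_lit 0) (p (nat_lit 0x50392) (nat_lit 0) (p (nat_lit 0x38312) (nat_lit 0) (p (nat_lit 0x20292) (nat_lit 0) (p (nat_lit 0x38112) (nat_lit 0) (p (nat_lit 0x20092)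 (nat_lit 0) (p (nat_lit 0x8012) (nat_lit 0) pn)))))))))))))))))))))) :=
  Cl.node (nat_lit 0x101) (nat_lit 2) (by decide +kernel) (ClAll.succ (ClAll.succ ClAll.zero n66) n67)

def n86 : Cl (O (nat_lit 3)) (R (nat_lit 143521))
    (p (nat_lit 0x119) (nat_lit 1) (p (nat_lit 0xd1) (nat_lit 0) (p (nat_lit 0x89) (nat_lit 0) (p (nat_lit 0x41) (nat_lit 0) (p (nat_lit 0x8a898a09081a) (nat_lit 0) (p (nat_lit 0xa090988879a) (nat_lit 0) (p (nat_lit 0x87888908071a) (nat_lit 0) (p (nat_lit 0x7080887869a) (nat_lit 0) (p (nat_lit 0x80000800088807060a) (nat_lit 0) (p (nat_lit 0x80000800060786858a) (nat_lit 0) (p (nat_lit 0x8687060502) (nat_lit 0) (p (nat_lit 0x606858482) (nat_lit 0) (p (nat_lit 0x160014) (nat_lit 0) (p (nat_lit 0x68612) (nat_lit 0) (p (nat_lit 0x50592) (nat_lit 0) (p (nat_lit 0x38512) (nat_lit 0) (p (nat_lit 0x50392) (nat_lit 0) (p (nat_lit 0x38312) (nat_lit 0) (p (nat_lit 0x20292)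 (nat_lit 0) (p (nat_lit 0x38112) (nat_lit 0) (p (nat_lit 0x20092) (nat_lit 0) (p (nat_lit 0x8012) (nat_lit 0) pn)))))))))))))))))))))) :=
  Cl.node (nat_lit 0xc1) (nat_lit 2) (by decide +kernel) (ClAll.succ (ClAll.succ ClAll.zero n68) n69)

def n87 : Cl (O (nat_lit 3)) (R (nat_lit 143521))
    (p (nat_lit 0x111) (nat_lit 0) (p (nat_lit 0xd1) (nat_lit 1) (p (nat_lit 0x89) (nat_lit 0) (p (nat_lit 0x41) (nat_lit 0) (p (nat_lit 0x8a898a09081a) (nat_lit 0) (p (nat_lit 0xa090988879a) (nat_lit 0) (p (nat_lit 0x87888908071a) (nat_lit 0) (p (nat_lit 0x7080887869a) (nat_lit 0) (p (nat_lit 0x80000800088807060a) (nat_lit 0) (p (nat_lit 0x80000800060786858a) (nat_lit 0) (p (nat_lit 0x8687060502) (nat_lit 0) (p (nat_lit 0x606858482) (nat_lit 0) (p (nat_lit 0x160014) (nat_lit 0) (p (nat_lit 0x68612) (nat_lit 0) (p (nat_lit 0x50592) (nat_lit 0) (p (nat_lit 0x38512) (nat_lit 0) (p (nat_lit 0x50392)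 (nat_lit 0) (p (nat_lit 0x38312) (nat_lit 0) (p (nat_lit 0x20292) (nat_lit 0) (p (nat_lit 0x38112) (nat_lit 0) (p (nat_lit 0x20092) (nat_lit 0) (p (nat_lit 0x8012) (nat_lit 0) pn)))))))))))))))))))))) :=
  Cl.node (nat_lit 0x101) (nat_lit 2) (by decide +kernel) (ClAll.succ (ClAll.succ ClAll.zero n70) n71)

def n88 : Cl (O (nat_lit 3)) (R (nat_lit 143521))
    (p (nat_lit 0x111) (nat_lit 1) (p (nat_lit 0xd1) (nat_lit 1) (p (nat_lit 0x89) (nat_lit 0) (p (nat_lit 0x41) (nat_lit 0) (p (nat_lit 0x8a898a09081a) (nat_lit 0) (p (nat_lit 0xa090988879a) (nat_lit 0) (p (nat_lit 0x87888908071a) (nat_lit 0) (p (nat_lit 0x7080887869a) (nat_lit 0) (p (nat_lit 0x80000800088807060a) (nat_lit 0) (p (nat_lit 0x80000800060786858a) (nat_lit 0) (p (nat_lit 0x8687060502) (nat_lit 0) (p (nat_lit 0x606858482) (nat_lit 0) (p (nat_lit 0x160014) (nat_lit 0) (p (nat_lit 0x68612) (nat_lit 0) (p (nat_lit 0x50592)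 (nat_lit 0) (p (nat_lit 0x38512) (nat_lit 0) (p (nat_lit 0x50392) (nat_lit 0) (p (nat_lit 0x38312) (nat_lit 0) (p (nat_lit 0x20292) (nat_lit 0) (p (nat_lit 0x38112) (nat_lit 0) (p (nat_lit 0x20092) (nat_lit 0) (p (nat_lit 0x8012) (nat_lit 0) pn)))))))))))))))))))))) :=
  Cl.node (nat_lit 0x81) (nat_lit 2) (by decide +kernel) (ClAll.succ (ClAll.succ ClAll.zero s49) n72)

def n89 : Cl (O (nat_lit 3)) (R (nat_lit 143521))
    (p (nat_lit 0x119) (nat_lit 0) (p (nat_lit 0xc9) (nat_lit 0) (p (nat_lit 0x89) (nat_lit 1) (p (nat_lit 0x41) (nat_lit 0) (p (nat_lit 0x8a898a09081a) (nat_lit 0) (p (nat_lit 0xa090988879a) (nat_lit 0) (p (nat_lit 0x87888908071a) (nat_lit 0) (p (nat_lit 0x7080887869a) (nat_lit 0) (p (nat_lit 0x80000800088807060a) (nat_lit 0) (p (nat_lit 0x80000800060786858a) (nat_lit 0) (p (nat_lit 0x8687060502) (nat_lit 0) (p (nat_lit 0x606858482) (nat_lit 0) (p (nat_lit 0x160014)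 (nat_lit 0) (p (nat_lit 0x68612) (nat_lit 0) (p (nat_lit 0x50592) (nat_lit 0) (p (nat_lit 0x38512) (nat_lit 0) (p (nat_lit 0x50392) (nat_lit 0) (p (nat_lit 0x38312) (nat_lit 0) (p (nat_lit 0x20292) (nat_lit 0) (p (nat_lit 0x38112) (nat_lit 0) (p (nat_lit 0x20092) (nat_lit 0) (p (nat_lit 0x8012) (nat_lit 0) pn)))))))))))))))))))))) :=
  Cl.node (nat_lit 0x101) (nat_lit 2) (by decide +kernel) (ClAll.succ (ClAll.succ ClAll.zero n73) n74)

def n90 : Cl (O (nat_lit 3)) (R (nat_lit 143521))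
    (p (nat_lit 0x119) (nat_lit 1) (p (nat_lit 0xc9) (nat_lit 0) (p (nat_lit 0x89) (nat_lit 1) (p (nat_lit 0x41) (nat_lit 0) (p (nat_lit 0x8a898a09081a) (nat_lit 0) (p (nat_lit 0xa090988879a) (nat_lit 0) (p (nat_lit 0x87888908071a) (nat_lit 0) (p (nat_lit 0x7080887869a) (nat_lit 0) (p (nat_lit 0x80000800088807060a) (nat_lit 0) (p (nat_lit 0x80000800060786858a) (nat_lit 0) (p (nat_lit 0x8687060502) (nat_lit 0) (p (nat_lit 0x606858482) (nat_lit 0) (p (nat_lit 0x160014) (nat_lit 0) (p (nat_lit 0x68612) (nat_lit 0) (p (nat_lit 0x50592) (nat_lit 0) (p (nat_lit 0x38512) (nat_lit 0) (p (nat_lit 0x50392) (nat_lit 0) (p (nat_lit 0x38312) (nat_lit 0) (p (nat_lit 0x20292) (nat_lit 0) (p (nat_lit 0x38112) (nat_lit 0) (p (nat_lit 0x20092) (nat_lit 0) (p (nat_lit 0x8012) (nat_lit 0) pn)))))))))))))))))))))) :=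
  Cl.node (nat_lit 0xc1) (nat_lit 2) (by decide +kernel) (ClAll.succ (ClAll.succ ClAll.zero n75) n76)

def n91 : Cl (O (nat_lit 3)) (R (nat_lit 143521))
    (p (nat_lit 0x109) (nat_lit 0) (p (nat_lit 0xc9) (nat_lit 1) (p (nat_lit 0x89) (nat_lit 1) (p (nat_lit 0x41) (nat_lit 0) (p (nat_lit 0x8a898a09081a) (nat_lit 0) (p (nat_lit 0xa090988879a) (nat_lit 0) (p (nat_lit 0x87888908071a) (nat_lit 0) (p (nat_lit 0x7080887869a) (nat_lit 0) (p (nat_lit 0x80000800088807060a) (nat_lit 0) (p (nat_lit 0x80000800060786858a) (nat_lit 0) (p (nat_lit 0x8687060502) (nat_lit 0) (p (nat_lit 0x606858482) (nat_lit 0) (p (nat_lit 0x160014) (nat_lit 0) (p (nat_lit 0x68612) (nat_lit 0) (p (nat_lit 0x50592) (nat_lit 0) (p (nat_lit 0x38512) (nat_lit 0) (p (nat_lit 0x50392) (nat_lit 0) (p (nat_lit 0x38312) (nat_lit 0) (p (nat_lit 0x20292) (nat_lit 0) (p (nat_lit 0x38112) (nat_lit 0) (p (nat_lit 0x20092) (nat_lit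 0) (p (nat_lit 0x8012) (nat_lit 0) pn)))))))))))))))))))))) :=
  Cl.node (nat_lit 0x101) (nat_lit 2) (by decide +kernel) (ClAll.succ (ClAll.succ ClAll.zero n77) s76)

def n92 : Cl (O (nat_lit 3)) (R (nat_lit 143521))
    (p (nat_lit 0x119) (nat_lit 0) (p (nat_lit 0xd1) (nat_lit 0) (p (nat_lit 0x81) (nat_lit 0) (p (nat_lit 0x41) (nat_lit 1) (p (nat_lit 0x8a898a09081a) (nat_lit 0) (p (nat_lit 0xa090988879a) (nat_lit 0) (p (nat_lit 0x87888908071a) (nat_lit 0) (p (nat_lit 0x7080887869a) (nat_lit 0) (p (nat_lit 0x80000800088807060a) (nat_lit 0) (p (nat_lit 0x80000800060786858a) (nat_lit 0) (p (nat_lit 0x8687060502) (nat_lit 0) (p (nat_lit 0x606858482) (nat_lit 0) (p (nat_lit 0x160014) (nat_lit 0) (p (nat_lit 0x68612) (nat_lit 0) (p (nat_lit 0x50592) (nat_lit 0) (p (nat_lit 0x38512) (nat_lit 0) (p (nat_lit 0x50392) (nat_lit 0) (p (nat_lit 0x38312) (nat_lit 0) (p (nat_lit 0x20292) (nat_lit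 0) (p (nat_lit 0x38112) (nat_lit 0) (p (nat_lit 0x20092) (nat_lit 0) (p (nat_lit 0x8012) (nat_lit 0) pn)))))))))))))))))))))) :=
  Cl.node (nat_lit 0x101) (nat_lit 2) (by decide +kernel) (ClAll.succ (ClAll.succ ClAll.zero n78) n79)

def n93 : Cl (O (nat_lit 3)) (R (nat_lit 143521))
    (p (nat_lit 0x119) (nat_lit 1) (p (nat_lit 0xd1) (nat_lit 0) (p (nat_lit 0x81) (nat_lit 0) (p (nat_lit 0x41) (nat_lit 1) (p (nat_lit 0x8a898a09081a) (nat_lit 0) (p (nat_lit 0xa090988879a) (nat_lit 0) (p (nat_lit 0x87888908071a) (nat_lit 0) (p (nat_lit 0x7080887869a) (nat_lit 0) (p (nat_lit 0x80000800088807060a) (nat_lit 0) (p (nat_lit 0x80000800060786858a) (nat_lit 0) (p (nat_lit 0x8687060502) (nat_lit 0) (p (nat_lit 0x606858482) (nat_lit 0) (p (nat_lit 0x160014) (nat_lit 0) (p (nat_lit 0x68612) (nat_lit 0) (p (nat_lit 0x50592) (nat_lit 0) (p (nat_lit 0x38512) (nat_lit 0) (p (nat_lit 0x50392) (nat_lit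 0) (p (nat_lit 0x38312) (nat_lit 0) (p (nat_lit 0x20292) (nat_lit 0) (p (nat_lit 0x38112) (nat_lit 0) (p (nat_lit 0x20092) (nat_lit 0) (p (nat_lit 0x8012) (nat_lit 0) pn)))))))))))))))))))))) :=
  Cl.node (nat_lit 0xc1) (nat_lit 2) (by decide +kernel) (ClAll.succ (ClAll.succ ClAll.zero s88) n80)

def n94 : Cl (O (nat_lit 3)) (R (nat_lit 143521))
    (p (nat_lit 0x111) (nat_lit 0) (p (nat_lit 0xd1) (nat_lit 1) (p (nat_lit 0x81) (nat_lit 0) (p (nat_lit 0x41) (nat_lit 1) (p (nat_lit 0x8a898a09081a) (nat_lit 0) (p (nat_lit 0xa090988879a) (nat_lit 0) (p (nat_lit 0x87888908071a) (nat_lit 0) (p (nat_lit 0x7080887869a) (nat_lit 0) (p (nat_lit 0x80000800088807060a) (nat_lit 0) (p (nat_lit 0x80000800060786858a) (nat_lit 0) (p (nat_lit 0x8687060502) (nat_lit 0) (p (nat_lit 0x606858482) (nat_lit 0) (p (nat_lit 0x160014) (nat_lit 0) (p (nat_lit 0x68612) (nat_lit 0) (p (nat_lit 0x50592) (nat_lit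 0) (p (nat_lit 0x38512) (nat_lit 0) (p (nat_lit 0x50392) (nat_lit 0) (p (nat_lit 0x38312) (nat_lit 0) (p (nat_lit 0x20292) (nat_lit 0) (p (nat_lit 0x38112) (nat_lit 0) (p (nat_lit 0x20092) (nat_lit 0) (p (nat_lit 0x8012) (nat_lit 0) pn)))))))))))))))))))))) :=
  Cl.node (nat_lit 0x101) (nat_lit 2) (by decide +kernel) (ClAll.succ (ClAll.succ ClAll.zero n81) n82)

def n95 : Cl (O (nat_lit 3)) (R (nat_lit 143521))
    (p (nat_lit 0x111) (nat_lit 1) (p (nat_lit 0xd1) (nat_lit 1) (p (nat_lit 0x81) (nat_lit 0) (p (nat_lit 0x41) (nat_lit 1) (p (nat_lit 0x8a898a09081a) (nat_lit 0) (p (nat_lit 0xa090988879a) (nat_lit 0) (p (nat_lit 0x87888908071a) (nat_lit 0) (p (nat_lit 0x7080887869a) (nat_lit 0) (p (nat_lit 0x80000800088807060a) (nat_lit 0) (p (nat_lit 0x80000800060786858a) (nat_lit 0) (p (nat_lit 0x8687060502) (nat_lit 0) (p (nat_lit 0x606858482) (nat_lit 0) (p (nat_lit 0x160014) (nat_lit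 0) (p (nat_lit 0x68612) (nat_lit 0) (p (nat_lit 0x50592) (nat_lit 0) (p (nat_lit 0x38512) (nat_lit 0) (p (nat_lit 0x50392) (nat_lit 0) (p (nat_lit 0x38312) (nat_lit 0) (p (nat_lit 0x20292) (nat_lit 0) (p (nat_lit 0x38112) (nat_lit 0) (p (nat_lit 0x20092) (nat_lit 0) (p (nat_lit 0x8012) (nat_lit 0) pn)))))))))))))))))))))) :=
  Cl.node (nat_lit 0x89) (nat_lit 2) (by decide +kernel) (ClAll.succ (ClAll.succ ClAll.zero s103) n83)

def n96 : Cl (O (nat_lit 3)) (R (nat_lit 143521))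
    (p (nat_lit 0x119) (nat_lit 0) (p (nat_lit 0xc1) (nat_lit 0) (p (nat_lit 0x81) (nat_lit 1) (p (nat_lit 0x41) (nat_lit 1) (p (nat_lit 0x8a898a09081a) (nat_lit 0) (p (nat_lit 0xa090988879a) (nat_lit 0) (p (nat_lit 0x87888908071a) (nat_lit 0) (p (nat_lit 0x7080887869a) (nat_lit 0) (p (nat_lit 0x80000800088807060a) (nat_lit 0) (p (nat_lit 0x80000800060786858a) (nat_lit 0) (p (nat_lit 0x8687060502) (nat_lit 0) (p (nat_lit 0x606858482) (nat_lit 0) (p (nat_lit 0x160014) (nat_lit 0) (p (nat_lit 0x68612) (nat_lit 0) (p (nat_lit 0x50592) (nat_lit 0) (p (nat_lit 0x38512) (nat_lit 0) (p (nat_lit 0x50392) (nat_lit 0) (p (nat_lit 0x38312) (nat_lit 0) (p (nat_lit 0x20292) (nat_lit 0) (p (nat_lit 0x38112) (nat_lit 0) (p (nat_lit 0x20092) (nat_lit 0) (p (nat_lit 0x8012) (nat_lit 0) pn)))))))))))))))))))))) :=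
  Cl.node (nat_lit 0x101) (nat_lit 2) (by decide +kernel) (ClAll.succ (ClAll.succ ClAll.zero n84) s109)

def n97 : Cl (O (nat_lit 3)) (R (nat_lit 143521))
    (p (nat_lit 0x119) (nat_lit 1) (p (nat_lit 0xc1) (nat_lit 0) (p (nat_lit 0x81) (nat_lit 1) (p (nat_lit 0x41) (nat_lit 1) (p (nat_lit 0x8a898a09081a) (nat_lit 0) (p (nat_lit 0xa090988879a) (nat_lit 0) (p (nat_lit 0x87888908071a) (nat_lit 0) (p (nat_lit 0x7080887869a) (nat_lit 0) (p (nat_lit 0x80000800088807060a) (nat_lit 0) (p (nat_lit 0x80000800060786858a) (nat_lit 0) (p (nat_lit 0x8687060502) (nat_lit 0) (p (nat_lit 0x606858482) (nat_lit 0) (p (nat_lit 0x160014) (nat_lit 0) (p (nat_lit 0x68612) (nat_lit 0) (p (nat_lit 0x50592) (nat_lit 0) (p (nat_lit 0x38512) (nat_lit 0) (p (nat_lit 0x50392) (nat_lit 0) (p (nat_lit 0x38312) (nat_lit 0) (p (nat_lit 0x20292) (nat_lit 0) (p (nat_lit 0x38112) (nat_lit 0) (p (nat_lit 0x20092) (nat_lit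 0) (p (nat_lit 0x8012) (nat_lit 0) pn)))))))))))))))))))))) :=
  Cl.node (nat_lit 0xc9) (nat_lit 2) (by decide +kernel) (ClAll.succ (ClAll.succ ClAll.zero s110) s111)

def n98 : Cl (O (nat_lit 3)) (R (nat_lit 143521))
    (p (nat_lit 0xd1) (nat_lit 0) (p (nat_lit 0x89) (nat_lit 0) (p (nat_lit 0x41) (nat_lit 0) (p (nat_lit 0x8a898a09081a) (nat_lit 0) (p (nat_lit 0xa090988879a) (nat_lit 0) (p (nat_lit 0x87888908071a) (nat_lit 0) (p (nat_lit 0x7080887869a) (nat_lit 0) (p (nat_lit 0x80000800088807060a) (nat_lit 0) (p (nat_lit 0x80000800060786858a) (nat_lit 0) (p (nat_lit 0x8687060502) (nat_lit 0) (p (nat_lit 0x606858482) (nat_lit 0) (p (nat_lit 0x160014) (nat_lit 0) (p (nat_lit 0x68612) (nat_lit 0) (p (nat_lit 0x50592) (nat_lit 0) (p (nat_lit 0x38512) (nat_lit 0) (p (nat_lit 0x50392) (nat_lit 0) (p (nat_lit 0x38312) (nat_lit 0) (p (nat_lit 0x20292) (nat_lit 0) (p (nat_lit 0x38112) (nat_lit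 0) (p (nat_lit 0x20092) (nat_lit 0) (p (nat_lit 0x8012) (nat_lit 0) pn))))))))))))))))))))) :=
  Cl.node (nat_lit 0x119) (nat_lit 2) (by decide +kernel) (ClAll.succ (ClAll.succ ClAll.zero n85) n86)

def n99 : Cl (O (nat_lit 3)) (R (nat_lit 143521))
    (p (nat_lit 0xd1) (nat_lit 1) (p (nat_lit 0x89) (nat_lit 0) (p (nat_lit 0x41) (nat_lit 0) (p (nat_lit 0x8a898a09081a) (nat_lit 0) (p (nat_lit 0xa090988879a) (nat_lit 0) (p (nat_lit 0x87888908071a) (nat_lit 0) (p (nat_lit 0x7080887869a) (nat_lit 0) (p (nat_lit 0x80000800088807060a) (nat_lit 0) (p (nat_lit 0x80000800060786858a) (nat_lit 0) (p (nat_lit 0x8687060502) (nat_lit 0) (p (nat_lit 0x606858482) (nat_lit 0) (p (nat_lit 0x160014) (nat_lit 0) (p (nat_lit 0x68612) (nat_lit 0) (p (nat_lit 0x50592) (nat_lit 0) (p (nat_lit 0x38512) (nat_lit 0) (p (nat_lit 0x50392) (nat_lit 0) (p (nat_lit 0x38312) (nat_lit 0) (p (nat_lit 0x20292) (nat_lit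 0) (p (nat_lit 0x38112) (nat_lit 0) (p (nat_lit 0x20092) (nat_lit 0) (p (nat_lit 0x8012) (nat_lit 0) pn))))))))))))))))))))) :=
  Cl.node (nat_lit 0x111) (nat_lit 2) (by decide +kernel) (ClAll.succ (ClAll.succ ClAll.zero n87) n88)

def n100 : Cl (O (nat_lit 3)) (R (nat_lit 143521))
    (p (nat_lit 0xc9) (nat_lit 0) (p (nat_lit 0x89) (nat_lit 1) (p (nat_lit 0x41) (nat_lit 0) (p (nat_lit 0x8a898a09081a) (nat_lit 0) (p (nat_lit 0xa090988879a) (nat_lit 0) (p (nat_lit 0x87888908071a) (nat_lit 0) (p (nat_lit 0x7080887869a) (nat_lit 0) (p (nat_lit 0x80000800088807060a) (nat_lit 0) (p (nat_lit 0x80000800060786858a) (nat_lit 0) (p (nat_lit 0x8687060502) (nat_lit 0) (p (nat_lit 0x606858482) (nat_lit 0) (p (nat_lit 0x160014) (nat_lit 0) (p (nat_lit 0x68612) (nat_lit 0) (p (nat_lit 0x50592) (nat_lit 0) (p (nat_lit 0x38512) (nat_lit 0) (p (nat_lit 0x50392) (nat_lit 0) (p (nat_lit 0x38312) (nat_lit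 0) (p (nat_lit 0x20292) (nat_lit 0) (p (nat_lit 0x38112) (nat_lit 0) (p (nat_lit 0x20092) (nat_lit 0) (p (nat_lit 0x8012) (nat_lit 0) pn))))))))))))))))))))) :=
  Cl.node (nat_lit 0x119) (nat_lit 2) (by decide +kernel) (ClAll.succ (ClAll.succ ClAll.zero n89) n90)

def n101 : Cl (O (nat_lit 3)) (R (nat_lit 143521))
    (p (nat_lit 0xc9) (nat_lit 1) (p (nat_lit 0x89) (nat_lit 1) (p (nat_lit 0x41) (nat_lit 0) (p (nat_lit 0x8a898a09081a) (nat_lit 0) (p (nat_lit 0xa090988879a) (nat_lit 0) (p (nat_lit 0x87888908071a) (nat_lit 0) (p (nat_lit 0x7080887869a) (nat_lit 0) (p (nat_lit 0x80000800088807060a) (nat_lit 0) (p (nat_lit 0x80000800060786858a) (nat_lit 0) (p (nat_lit 0x8687060502) (nat_lit 0) (p (nat_lit 0x606858482) (nat_lit 0) (p (nat_lit 0x160014) (nat_lit 0) (p (nat_lit 0x68612) (nat_lit 0) (p (nat_lit 0x50592) (nat_lit 0) (p (nat_lit 0x38512) (nat_lit 0) (p (nat_lit 0x50392) (nat_lit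 0) (p (nat_lit 0x38312) (nat_lit 0) (p (nat_lit 0x20292) (nat_lit 0) (p (nat_lit 0x38112) (nat_lit 0) (p (nat_lit 0x20092) (nat_lit 0) (p (nat_lit 0x8012) (nat_lit 0) pn))))))))))))))))))))) :=
  Cl.node (nat_lit 0x109) (nat_lit 2) (by decide +kernel) (ClAll.succ (ClAll.succ ClAll.zero n91) s77)

def n102 : Cl (O (nat_lit 3)) (R (nat_lit 143521))
    (p (nat_lit 0xd1) (nat_lit 0) (p (nat_lit 0x81) (nat_lit 0) (p (nat_lit 0x41) (nat_lit 1) (p (nat_lit 0x8a898a09081a) (nat_lit 0) (p (nat_lit 0xa090988879a) (nat_lit 0) (p (nat_lit 0x87888908071a) (nat_lit 0) (p (nat_lit 0x7080887869a) (nat_lit 0) (p (nat_lit 0x80000800088807060a) (nat_lit 0) (p (nat_lit 0x80000800060786858a) (nat_lit 0) (p (nat_lit 0x8687060502) (nat_lit 0) (p (nat_lit 0x606858482) (nat_lit 0) (p (nat_lit 0x160014) (nat_lit 0) (p (nat_lit 0x68612) (nat_lit 0) (p (nat_lit 0x50592) (nat_lit 0) (p (nat_lit 0x38512) (nat_lit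 0) (p (nat_lit 0x50392) (nat_lit 0) (p (nat_lit 0x38312) (nat_lit 0) (p (nat_lit 0x20292) (nat_lit 0) (p (nat_lit 0x38112) (nat_lit 0) (p (nat_lit 0x20092) (nat_lit 0) (p (nat_lit 0x8012) (nat_lit 0) pn))))))))))))))))))))) :=
  Cl.node (nat_lit 0x119) (nat_lit 2) (by decide +kernel) (ClAll.succ (ClAll.succ ClAll.zero n92) n93)

def n103 : Cl (O (nat_lit 3)) (R (nat_lit 143521))
    (p (nat_lit 0xd1) (nat_lit 1) (p (nat_lit 0x81) (nat_lit 0) (p (nat_lit 0x41) (nat_lit 1) (p (nat_lit 0x8a898a09081a) (nat_lit 0) (p (nat_lit 0xa090988879a) (nat_lit 0) (p (nat_lit 0x87888908071a) (nat_lit 0) (p (nat_lit 0x7080887869a) (nat_lit 0) (p (nat_lit 0x80000800088807060a) (nat_lit 0) (p (nat_lit 0x80000800060786858a) (nat_lit 0) (p (nat_lit 0x8687060502) (nat_lit 0) (p (nat_lit 0x606858482) (nat_lit 0) (p (nat_lit 0x160014) (nat_lit 0) (p (nat_lit 0x68612) (nat_lit 0) (p (nat_lit 0x50592) (nat_lit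 0) (p (nat_lit 0x38512) (nat_lit 0) (p (nat_lit 0x50392) (nat_lit 0) (p (nat_lit 0x38312) (nat_lit 0) (p (nat_lit 0x20292) (nat_lit 0) (p (nat_lit 0x38112) (nat_lit 0) (p (nat_lit 0x20092) (nat_lit 0) (p (nat_lit 0x8012) (nat_lit 0) pn))))))))))))))))))))) :=
  Cl.node (nat_lit 0x111) (nat_lit 2) (by decide +kernel) (ClAll.succ (ClAll.succ ClAll.zero n94) n95)

def n104 : Cl (O (nat_lit 3)) (R (nat_lit 143521))
    (p (nat_lit 0xc1) (nat_lit 0) (p (nat_lit 0x81) (nat_lit 1) (p (nat_lit 0x41) (nat_lit 1) (p (nat_lit 0x8a898a09081a) (nat_lit 0) (p (nat_lit 0xa090988879a) (nat_lit 0) (p (nat_lit 0x87888908071a) (nat_lit 0) (p (nat_lit 0x7080887869a) (nat_lit 0) (p (nat_lit 0x80000800088807060a) (nat_lit 0) (p (nat_lit 0x80000800060786858a) (nat_lit 0) (p (nat_lit 0x8687060502) (nat_lit 0) (p (nat_lit 0x606858482) (nat_lit 0) (p (nat_lit 0x160014) (nat_lit 0) (p (nat_lit 0x68612) (nat_lit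 0) (p (nat_lit 0x50592) (nat_lit 0) (p (nat_lit 0x38512) (nat_lit 0) (p (nat_lit 0x50392) (nat_lit 0) (p (nat_lit 0x38312) (nat_lit 0) (p (nat_lit 0x20292) (nat_lit 0) (p (nat_lit 0x38112) (nat_lit 0) (p (nat_lit 0x20092) (nat_lit 0) (p (nat_lit 0x8012) (nat_lit 0) pn))))))))))))))))))))) :=
  Cl.node (nat_lit 0x119) (nat_lit 2) (by decide +kernel) (ClAll.succ (ClAll.succ ClAll.zero n96) n97)

def n105 : Cl (O (nat_lit 3)) (R (nat_lit 143521))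
    (p (nat_lit 0x89) (nat_lit 0) (p (nat_lit 0x41) (nat_lit 0) (p (nat_lit 0x8a898a09081a) (nat_lit 0) (p (nat_lit 0xa090988879a) (nat_lit 0) (p (nat_lit 0x87888908071a) (nat_lit 0) (p (nat_lit 0x7080887869a) (nat_lit 0) (p (nat_lit 0x80000800088807060a) (nat_lit 0) (p (nat_lit 0x80000800060786858a) (nat_lit 0) (p (nat_lit 0x8687060502) (nat_lit 0) (p (nat_lit 0x606858482) (nat_lit 0) (p (nat_lit 0x160014) (nat_lit 0) (p (nat_lit 0x68612) (nat_lit 0) (p (nat_lit 0x50592) (nat_lit 0) (p (nat_lit 0x38512) (nat_lit 0) (p (nat_lit 0x50392) (nat_lit 0) (p (nat_lit 0x38312) (nat_lit 0) (p (nat_lit 0x20292) (nat_lit 0) (p (nat_lit 0x38112) (nat_lit 0) (p (nat_lit 0x20092) (nat_lit 0) (p (nat_lit 0x8012) (nat_lit 0) pn)))))))))))))))))))) :=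
  Cl.node (nat_lit 0xd1) (nat_lit 2) (by decide +kernel) (ClAll.succ (ClAll.succ ClAll.zero n98) n99)

def n106 : Cl (O (nat_lit 3)) (R (nat_lit 143521))
    (p (nat_lit 0x89) (nat_lit 1) (p (nat_lit 0x41) (nat_lit 0) (p (nat_lit 0x8a898a09081a) (nat_lit 0) (p (nat_lit 0xa090988879a) (nat_lit 0) (p (nat_lit 0x87888908071a) (nat_lit 0) (p (nat_lit 0x7080887869a) (nat_lit 0) (p (nat_lit 0x80000800088807060a) (nat_lit 0) (p (nat_lit 0x80000800060786858a) (nat_lit 0) (p (nat_lit 0x8687060502) (nat_lit 0) (p (nat_lit 0x606858482) (nat_lit 0) (p (nat_lit 0x160014) (nat_lit 0) (p (nat_lit 0x68612) (nat_lit 0) (p (nat_lit 0x50592) (nat_lit 0) (p (nat_lit 0x38512) (nat_lit 0) (p (nat_lit 0x50392) (nat_lit 0) (p (nat_lit 0x38312) (nat_lit 0) (p (nat_lit 0x20292) (nat_lit 0) (p (nat_lit 0x38112) (nat_lit 0) (p (nat_lit 0x20092) (nat_lit 0) (p (nat_lit 0x8012) (nat_lit 0) pn))))))))))))))))))))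 :=
  Cl.node (nat_lit 0xc9) (nat_lit 2) (by decide +kernel) (ClAll.succ (ClAll.succ ClAll.zero n100) n101)

def n107 : Cl (O (nat_lit 3)) (R (nat_lit 143521))
    (p (nat_lit 0x81) (nat_lit 0) (p (nat_lit 0x41) (nat_lit 1) (p (nat_lit 0x8a898a09081a) (nat_lit 0) (p (nat_lit 0xa090988879a) (nat_lit 0) (p (nat_lit 0x87888908071a) (nat_lit 0) (p (nat_lit 0x7080887869a) (nat_lit 0) (p (nat_lit 0x80000800088807060a) (nat_lit 0) (p (nat_lit 0x80000800060786858a) (nat_lit 0) (p (nat_lit 0x8687060502) (nat_lit 0) (p (nat_lit 0x606858482) (nat_lit 0) (p (nat_lit 0x160014) (nat_lit 0) (p (nat_lit 0x68612) (nat_lit 0) (p (nat_lit 0x50592) (nat_lit 0) (p (nat_lit 0x38512) (nat_lit 0) (p (nat_lit 0x50392) (nat_lit 0) (p (nat_lit 0x38312) (nat_lit 0) (p (nat_lit 0x20292) (nat_lit 0) (p (nat_lit 0x38112) (nat_lit 0) (p (nat_lit 0x20092) (nat_lit 0) (p (nat_lit 0x8012) (nat_lit 0) pn))))))))))))))))))))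 :=
  Cl.node (nat_lit 0xd1) (nat_lit 2) (by decide +kernel) (ClAll.succ (ClAll.succ ClAll.zero n102) n103)

def n108 : Cl (O (nat_lit 3)) (R (nat_lit 143521))
    (p (nat_lit 0x81) (nat_lit 1) (p (nat_lit 0x41) (nat_lit 1) (p (nat_lit 0x8a898a09081a) (nat_lit 0) (p (nat_lit 0xa090988879a) (nat_lit 0) (p (nat_lit 0x87888908071a) (nat_lit 0) (p (nat_lit 0x7080887869a) (nat_lit 0) (p (nat_lit 0x80000800088807060a) (nat_lit 0) (p (nat_lit 0x80000800060786858a) (nat_lit 0) (p (nat_lit 0x8687060502) (nat_lit 0) (p (nat_lit 0x606858482) (nat_lit 0) (p (nat_lit 0x160014) (nat_lit 0) (p (nat_lit 0x68612) (nat_lit 0) (p (nat_lit 0x50592) (nat_lit 0) (p (nat_lit 0x38512) (nat_lit 0) (p (nat_lit 0x50392) (nat_lit 0) (p (nat_lit 0x38312) (nat_lit 0) (p (nat_lit 0x20292) (nat_lit 0) (p (nat_lit 0x38112) (nat_lit 0) (p (nat_lit 0x20092) (nat_lit 0) (p (nat_lit 0x8012) (nat_lit 0) pn))))))))))))))))))))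 :=
  Cl.node (nat_lit 0xc1) (nat_lit 2) (by decide +kernel) (ClAll.succ (ClAll.succ ClAll.zero n104) s112)

def n109 : Cl (O (nat_lit 3)) (R (nat_lit 143521))
    (p (nat_lit 0x41) (nat_lit 0) (p (nat_lit 0x8a898a09081a) (nat_lit 0) (p (nat_lit 0xa090988879a) (nat_lit 0) (p (nat_lit 0x87888908071a) (nat_lit 0) (p (nat_lit 0x7080887869a) (nat_lit 0) (p (nat_lit 0x80000800088807060a) (nat_lit 0) (p (nat_lit 0x80000800060786858a) (nat_lit 0) (p (nat_lit 0x8687060502) (nat_lit 0) (p (nat_lit 0x606858482) (nat_lit 0) (p (nat_lit 0x160014) (nat_lit 0) (p (nat_lit 0x68612) (nat_lit 0) (p (nat_lit 0x50592) (nat_lit 0) (p (nat_lit 0x38512) (nat_lit 0) (p (nat_lit 0x50392) (nat_lit 0) (p (nat_lit 0x38312) (nat_lit 0) (p (nat_lit 0x20292) (nat_lit 0) (p (nat_lit 0x38112) (nat_lit 0) (p (nat_lit 0x20092) (nat_lit 0) (p (nat_lit 0x8012) (nat_lit 0) pn))))))))))))))))))) :=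
  Cl.node (nat_lit 0x89) (nat_lit 2) (by decide +kernel) (ClAll.succ (ClAll.succ ClAll.zero n105) n106)

def n110 : Cl (O (nat_lit 3)) (R (nat_lit 143521))
    (p (nat_lit 0x41) (nat_lit 1) (p (nat_lit 0x8a898a09081a) (nat_lit 0) (p (nat_lit 0xa090988879a) (nat_lit 0) (p (nat_lit 0x87888908071a) (nat_lit 0) (p (nat_lit 0x7080887869a) (nat_lit 0) (p (nat_lit 0x80000800088807060a) (nat_lit 0) (p (nat_lit 0x80000800060786858a) (nat_lit 0) (p (nat_lit 0x8687060502) (nat_lit 0) (p (nat_lit 0x606858482) (nat_lit 0) (p (nat_lit 0x160014) (nat_lit 0) (p (nat_lit 0x68612) (nat_lit 0) (p (nat_lit 0x50592) (nat_lit 0) (p (nat_lit 0x38512) (nat_lit 0) (p (nat_lit 0x50392) (nat_lit 0) (p (nat_lit 0x38312) (nat_lit 0) (p (nat_lit 0x20292) (nat_lit 0) (p (nat_lit 0x38112) (nat_lit 0) (p (nat_lit 0x20092) (nat_lit 0) (p (nat_lit 0x8012) (nat_lit 0) pn))))))))))))))))))) :=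
  Cl.node (nat_lit 0x81) (nat_lit 2) (by decide +kernel) (ClAll.succ (ClAll.succ ClAll.zero n107) n108)

def n111 : Cl (O (nat_lit 3)) (R (nat_lit 143521))
    (p (nat_lit 0x8a898a09081a) (nat_lit 0) (p (nat_lit 0xa090988879a) (nat_lit 0) (p (nat_lit 0x87888908071a) (nat_lit 0) (p (nat_lit 0x7080887869a) (nat_lit 0) (p (nat_lit 0x80000800088807060a) (nat_lit 0) (p (nat_lit 0x80000800060786858a) (nat_lit 0) (p (nat_lit 0x8687060502) (nat_lit 0) (p (nat_lit 0x606858482) (nat_lit 0) (p (nat_lit 0x160014) (nat_lit 0) (p (nat_lit 0x68612) (nat_lit 0) (p (nat_lit 0x50592) (nat_lit 0) (p (nat_lit 0x38512) (nat_lit 0) (p (nat_lit 0x50392) (nat_lit 0) (p (nat_lit 0x38312) (nat_lit 0) (p (nat_lit 0x20292) (nat_lit 0) (p (nat_lit 0x38112) (nat_lit 0) (p (nat_lit 0x20092) (nat_lit 0) (p (nat_lit 0x8012) (nat_lit 0) pn)))))))))))))))))) :=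
  Cl.node (nat_lit 0x41) (nat_lit 2) (by decide +kernel) (ClAll.succ (ClAll.succ ClAll.zero n109) n110)

def n112 : Cl (O (nat_lit 3)) (R (nat_lit 143521))
    (p (nat_lit 0xa090988879a) (nat_lit 0) (p (nat_lit 0x87888908071a) (nat_lit 0) (p (nat_lit 0x7080887869a) (nat_lit 0) (p (nat_lit 0x80000800088807060a) (nat_lit 0) (p (nat_lit 0x80000800060786858a) (nat_lit 0) (p (nat_lit 0x8687060502) (nat_lit 0) (p (nat_lit 0x606858482) (nat_lit 0) (p (nat_lit 0x160014) (nat_lit 0) (p (nat_lit 0x68612) (nat_lit 0) (p (nat_lit 0x50592) (nat_lit 0) (p (nat_lit 0x38512) (nat_lit 0) (p (nat_lit 0x50392) (nat_lit 0) (p (nat_lit 0x38312) (nat_lit 0) (p (nat_lit 0x20292) (nat_lit 0) (p (nat_lit 0x38112) (nat_lit 0) (p (nat_lit 0x20092) (nat_lit 0) (p (nat_lit 0x8012) (nat_lit 0) pn))))))))))))))))) :=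
  Cl.node (nat_lit 0x8a898a09081a) (nat_lit 1) (by decide +kernel) (ClAll.succ ClAll.zero n111)

def n113 : Cl (O (nat_lit 3)) (R (nat_lit 143521))
    (p (nat_lit 0x87888908071a) (nat_lit 0) (p (nat_lit 0x7080887869a) (nat_lit 0) (p (nat_lit 0x80000800088807060a) (nat_lit 0) (p (nat_lit 0x80000800060786858a) (nat_lit 0) (p (nat_lit 0x8687060502) (nat_lit 0) (p (nat_lit 0x606858482) (nat_lit 0) (p (nat_lit 0x160014) (nat_lit 0) (p (nat_lit 0x68612) (nat_lit 0) (p (nat_lit 0x50592) (nat_lit 0) (p (nat_lit 0x38512) (nat_lit 0) (p (nat_lit 0x50392) (nat_lit 0) (p (nat_lit 0x38312) (nat_lit 0) (p (nat_lit 0x20292) (nat_lit 0) (p (nat_lit 0x38112) (nat_lit 0) (p (nat_lit 0x20092) (nat_lit 0) (p (nat_lit 0x8012) (nat_lit 0) pn)))))))))))))))) :=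
  Cl.node (nat_lit 0xa090988879a) (nat_lit 1) (by decide +kernel) (ClAll.succ ClAll.zero n112)

def n114 : Cl (O (nat_lit 3)) (R (nat_lit 143521))
    (p (nat_lit 0x7080887869a) (nat_lit 0) (p (nat_lit 0x80000800088807060a) (nat_lit 0) (p (nat_lit 0x80000800060786858a) (nat_lit 0) (p (nat_lit 0x8687060502) (nat_lit 0) (p (nat_lit 0x606858482) (nat_lit 0) (p (nat_lit 0x160014) (nat_lit 0) (p (nat_lit 0x68612) (nat_lit 0) (p (nat_lit 0x50592) (nat_lit 0) (p (nat_lit 0x38512) (nat_lit 0) (p (nat_lit 0x50392) (nat_lit 0) (p (nat_lit 0x38312) (nat_lit 0) (p (nat_lit 0x20292) (nat_lit 0) (p (nat_lit 0x38112) (nat_lit 0) (p (nat_lit 0x20092) (nat_lit 0) (p (nat_lit 0x8012) (nat_lit 0) pn))))))))))))))) :=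
  Cl.node (nat_lit 0x87888908071a) (nat_lit 1) (by decide +kernel) (ClAll.succ ClAll.zero n113)

def n115 : Cl (O (nat_lit 3)) (R (nat_lit 143521))
    (p (nat_lit 0x80000800088807060a) (nat_lit 0) (p (nat_lit 0x80000800060786858a) (nat_lit 0) (p (nat_lit 0x8687060502) (nat_lit 0) (p (nat_lit 0x606858482) (nat_lit 0) (p (nat_lit 0x160014) (nat_lit 0) (p (nat_lit 0x68612) (nat_lit 0) (p (nat_lit 0x50592) (nat_lit 0) (p (nat_lit 0x38512) (nat_lit 0) (p (nat_lit 0x50392) (nat_lit 0) (p (nat_lit 0x38312) (nat_lit 0) (p (nat_lit 0x20292) (nat_lit 0) (p (nat_lit 0x38112) (nat_lit 0) (p (nat_lit 0x20092) (nat_lit 0) (p (nat_lit 0x8012) (nat_lit 0) pn)))))))))))))) :=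
  Cl.node (nat_lit 0x7080887869a) (nat_lit 1) (by decide +kernel) (ClAll.succ ClAll.zero n114)

def n116 : Cl (O (nat_lit 3)) (R (nat_lit 143521))
    (p (nat_lit 0x80000800060786858a) (nat_lit 0) (p (nat_lit 0x8687060502) (nat_lit 0) (p (nat_lit 0x606858482) (nat_lit 0) (p (nat_lit 0x160014) (nat_lit 0) (p (nat_lit 0x68612) (nat_lit 0) (p (nat_lit 0x50592) (nat_lit 0) (p (nat_lit 0x38512) (nat_lit 0) (p (nat_lit 0x50392) (nat_lit 0) (p (nat_lit 0x38312) (nat_lit 0) (p (nat_lit 0x20292) (nat_lit 0) (p (nat_lit 0x38112) (nat_lit 0) (p (nat_lit 0x20092) (nat_lit 0) (p (nat_lit 0x8012) (nat_lit 0) pn))))))))))))) :=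
  Cl.node (nat_lit 0x80000800088807060a) (nat_lit 1) (by decide +kernel) (ClAll.succ ClAll.zero n115)

def n117 : Cl (O (nat_lit 3)) (R (nat_lit 143521))
    (p (nat_lit 0x8687060502) (nat_lit 0) (p (nat_lit 0x606858482) (nat_lit 0) (p (nat_lit 0x160014) (nat_lit 0) (p (nat_lit 0x68612) (nat_lit 0) (p (nat_lit 0x50592) (nat_lit 0) (p (nat_lit 0x38512) (nat_lit 0) (p (nat_lit 0x50392) (nat_lit 0) (p (nat_lit 0x38312) (nat_lit 0) (p (nat_lit 0x20292) (nat_lit 0) (p (nat_lit 0x38112) (nat_lit 0) (p (nat_lit 0x20092) (nat_lit 0) (p (nat_lit 0x8012) (nat_lit 0) pn)))))))))))) :=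
  Cl.node (nat_lit 0x80000800060786858a) (nat_lit 1) (by decide +kernel) (ClAll.succ ClAll.zero n116)

def n118 : Cl (O (nat_lit 3)) (R (nat_lit 143521))
    (p (nat_lit 0x606858482) (nat_lit 0) (p (nat_lit 0x160014) (nat_lit 0) (p (nat_lit 0x68612) (nat_lit 0) (p (nat_lit 0x50592) (nat_lit 0) (p (nat_lit 0x38512) (nat_lit 0) (p (nat_lit 0x50392) (nat_lit 0) (p (nat_lit 0x38312) (nat_lit 0) (p (nat_lit 0x20292) (nat_lit 0) (p (nat_lit 0x38112) (nat_lit 0) (p (nat_lit 0x20092) (nat_lit 0) (p (nat_lit 0x8012) (nat_lit 0) pn))))))))))) :=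
  Cl.node (nat_lit 0x8687060502) (nat_lit 1) (by decide +kernel) (ClAll.succ ClAll.zero n117)

def n119 : Cl (O (nat_lit 3)) (R (nat_lit 143521))
    (p (nat_lit 0x160014) (nat_lit 0) (p (nat_lit 0x68612) (nat_lit 0) (p (nat_lit 0x50592) (nat_lit 0) (p (nat_lit 0x38512) (nat_lit 0) (p (nat_lit 0x50392) (nat_lit 0) (p (nat_lit 0x38312) (nat_lit 0) (p (nat_lit 0x20292) (nat_lit 0) (p (nat_lit 0x38112) (nat_lit 0) (p (nat_lit 0x20092) (nat_lit 0) (p (nat_lit 0x8012) (nat_lit 0) pn)))))))))) :=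
  Cl.node (nat_lit 0x606858482) (nat_lit 1) (by decide +kernel) (ClAll.succ ClAll.zero n118)

def n120 : Cl (O (nat_lit 3)) (R (nat_lit 143521))
    (p (nat_lit 0x68612) (nat_lit 0) (p (nat_lit 0x50592) (nat_lit 0) (p (nat_lit 0x38512) (nat_lit 0) (p (nat_lit 0x50392) (nat_lit 0) (p (nat_lit 0x38312) (nat_lit 0) (p (nat_lit 0x20292) (nat_lit 0) (p (nat_lit 0x38112) (nat_lit 0) (p (nat_lit 0x20092) (nat_lit 0) (p (nat_lit 0x8012) (nat_lit 0) pn))))))))) :=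
  Cl.node (nat_lit 0x160014) (nat_lit 2) (by decide +kernel) (ClAll.succ (ClAll.succ ClAll.zero n119) s113)

def n121 : Cl (O (nat_lit 3)) (R (nat_lit 143521))
    (p (nat_lit 0x50592) (nat_lit 0) (p (nat_lit 0x38512) (nat_lit 0) (p (nat_lit 0x50392) (nat_lit 0) (p (nat_lit 0x38312) (nat_lit 0) (p (nat_lit 0x20292) (nat_lit 0) (p (nat_lit 0x38112) (nat_lit 0) (p (nat_lit 0x20092) (nat_lit 0) (p (nat_lit 0x8012) (nat_lit 0) pn)))))))) :=
  Cl.node (nat_lit 0x68612) (nat_lit 1) (by decide +kernel) (ClAll.succ ClAll.zero n120)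

def n122 : Cl (O (nat_lit 3)) (R (nat_lit 143521))
    (p (nat_lit 0x38512) (nat_lit 0) (p (nat_lit 0x50392) (nat_lit 0) (p (nat_lit 0x38312) (nat_lit 0) (p (nat_lit 0x20292) (nat_lit 0) (p (nat_lit 0x38112) (nat_lit 0) (p (nat_lit 0x20092) (nat_lit 0) (p (nat_lit 0x8012) (nat_lit 0) pn))))))) :=
  Cl.node (nat_lit 0x50592) (nat_lit 1) (by decide +kernel) (ClAll.succ ClAll.zero n121)

def n123 : Cl (O (nat_lit 3)) (R (nat_lit 143521))
    (p (nat_lit 0x50392) (nat_lit 0) (p (nat_lit 0x38312) (nat_lit 0) (p (nat_lit 0x20292) (nat_lit 0) (p (nat_lit 0x38112) (nat_lit 0) (p (nat_lit 0x20092) (nat_lit 0) (p (nat_lit 0x8012) (nat_lit 0) pn)))))) :=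
  Cl.node (nat_lit 0x38512) (nat_lit 1) (by decide +kernel) (ClAll.succ ClAll.zero n122)

def n124 : Cl (O (nat_lit 3)) (R (nat_lit 143521))
    (p (nat_lit 0x38312) (nat_lit 0) (p (nat_lit 0x20292) (nat_lit 0) (p (nat_lit 0x38112) (nat_lit 0) (p (nat_lit 0x20092) (nat_lit 0) (p (nat_lit 0x8012) (nat_lit 0) pn))))) :=
  Cl.node (nat_lit 0x50392) (nat_lit 1) (by decide +kernel) (ClAll.succ ClAll.zero n123)

def n125 : Cl (O (nat_lit 3)) (R (nat_lit 143521))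
    (p (nat_lit 0x20292) (nat_lit 0) (p (nat_lit 0x38112) (nat_lit 0) (p (nat_lit 0x20092) (nat_lit 0) (p (nat_lit 0x8012) (nat_lit 0) pn)))) :=
  Cl.node (nat_lit 0x38312) (nat_lit 1) (by decide +kernel) (ClAll.succ ClAll.zero n124)

def n126 : Cl (O (nat_lit 3)) (R (nat_lit 143521))
    (p (nat_lit 0x38112) (nat_lit 0) (p (nat_lit 0x20092) (nat_lit 0) (p (nat_lit 0x8012) (nat_lit 0) pn))) :=
  Cl.node (nat_lit 0x20292) (nat_lit 1) (by decide +kernel) (ClAll.succ ClAll.zero n125)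

def n127 : Cl (O (nat_lit 3)) (R (nat_lit 143521))
    (p (nat_lit 0x20092) (nat_lit 0) (p (nat_lit 0x8012) (nat_lit 0) pn)) :=
  Cl.node (nat_lit 0x38112) (nat_lit 1) (by decide +kernel) (ClAll.succ ClAll.zero n126)

def n128 : Cl (O (nat_lit 3)) (R (nat_lit 143521))
    (p (nat_lit 0x8012) (nat_lit 0) pn) :=
  Cl.node (nat_lit 0x20092) (nat_lit 1) (by decide +kernel) (ClAll.succ ClAll.zero n127)

def n129 : Cl (O (nat_lit 3)) (R (nat_lit 143521))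
    pn :=
  Cl.node (nat_lit 0x8012) (nat_lit 1) (by decide +kernel) (ClAll.succ ClAll.zero n128)

theorem top : Cl (O (nat_lit 3)) (R (nat_lit 143521)) pn := n129

end Pool.Agent.Gen.F5.X1D2C3Dm3
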